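import Pool.Agent.W263.BSD.Lead8
import Pool.Agent.W189.ML.Curve
set_option autoImplicit false

/-!
The leading coefficient at `s = 1` of the `L`-series of an elliptic curve is positive if there are no
real zeros `> 1`.
-/

namespace Pool.Agent.Q115.RV

open Filter Topology Set Classical
open Pool.Agent.W263.BSD

variable {a b : ℤ} {F : ℂ → ℂ}

theorem small_pos {w : ℝ} (hw : 0 ≤ w) : ∃ y : ℝ, 0 < y ∧ small a b w = y := by
  unfold small
  have : ∀ s : Finset ℕ, ∃ y : ℝ, 0 < y ∧
      (∏ p ∈ s, if GoodPrime a b p then ef a b p w else 1) = (y : ℂ) := by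
    intro s
    induction s using Finset.induction_on with
    | empty => exact ⟨1, one_pos, by simp⟩
    | insert p s hps ih =>
      obtain ⟨y, hy, he⟩ := ih
      rw [Finset.prod_insert hps, he]
      split_ifs with hg
      · obtain ⟨z, hz, he'⟩ := ef_real_pos (a := a) (b := b) hg.1 hw
        exact ⟨z * y, mul_pos hz hy, by rw [he']; push_cast; ring⟩
      · exact ⟨y, hy, by rw [one_mul]⟩
  exact this _

theorem phi_pos (hF : IsLSeries a b F) (hreal : ∀ s : ℝ, 1 < s → F s ≠ 0) {w : ℝ} (hw : 0 < w) :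
    0 < (PhiF a b F w).re := by
  have h2 := Pool.Agent.W189.ML.PhiF_two_pos hF
  have hne : ∀ x : ℝ, 0 < x → (PhiF a b F x).re ≠ 0 := by
    intro x hx h
    have h0 : PhiF a b F x = 0 := Complex.ext (by simpa using h)
      (by simpa using Pool.Agent.W189.ML.PhiF_real hF x)
    exact hreal (1 + x) (by linarith) ((Pool.Agent.W189.ML.PhiF_zero_iff x hx.le).1 h0)
  have hc : Continuous fun x : ℝ => (PhiF a b F x).re :=
    Complex.continuous_re.comp ((PhiF_differentiable hF).continuous.comp Complex.continuous_ofReal)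
  by_contra hcon
  have h3 : (PhiF a b F w).re < 0 := lt_of_le_of_ne (not_lt.1 hcon) (hne w hw)
  have h4 : (0 : ℝ) ∈ (fun x : ℝ => (PhiF a b F x).re) '' uIcc w 2 := by
    refine intermediate_value_uIcc hc.continuousOn ?_
    rw [mem_uIcc]
    left
    exact ⟨h3.le, by simpa using h2.le⟩
  obtain ⟨x, hx, hx0⟩ := h4
  refine hne x ?_ hx0
  rw [mem_uIcc] at hx
  rcases hx with h | h <;> linarith [h.1]

theorem coeff_real (hF : IsLSeries a b F) {r : ℕ} (hr : analyticOrderAt F 1 = r)
    (hreal : ∀ s : ℝ, 1 < s → F s ≠ 0) :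
    iteratedDeriv r F 1 = (‖iteratedDeriv r F 1‖ : ℂ) := by
  have h1 : ∀ w : ℝ, 0 < w → F (1 + w) = (‖F (1 + w)‖ : ℂ) := by
    intro w hw
    have h2 := phi_pos hF hreal hw
    obtain ⟨y, hy, he⟩ := small_pos (a := a) (b := b) hw.le
    have h3 : PhiF a b F w = (((PhiF a b F w).re : ℝ) : ℂ) := Complex.ext (by simp)
      (by simpa using Pool.Agent.W189.ML.PhiF_real hF w)
    set z : ℝ := (PhiF a b F w).re with hz
    have h4 : F (1 + w) = ((z / y : ℝ) : ℂ) := by
      unfold PhiF at h3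
      rw [he] at h3
      have hyc : (y : ℂ) ≠ 0 := by exact_mod_cast hy.ne'
      rw [eq_div_iff hyc |>.mpr h3]
      push_cast
      rfl
    rw [h4, Complex.norm_real, Real.norm_of_nonneg (by positivity)]
  obtain ⟨hpos, hlim⟩ := lead_limit hF.1 hr
  have hFa : AnalyticAt ℂ F 1 := hF.1.analyticAt 1
  have hz := (natCast_le_analyticOrderAt_iff_iteratedDeriv_eq_zero hFa (n := r)).mp hr.ge
  have hfa : AnalyticAt ℂ (fun w : ℂ => F (1 + w)) 0 := by
    have : Differentiable ℂ (fun w : ℂ => F (1 + w)) := hF.1.comp (by fun_prop)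
    exact this.analyticAt 0
  obtain ⟨G, hG, hG'⟩ := hfa.exists_eq_sum_add_pow_mul (r + 1)
  have h4 : ∀ i, iteratedDeriv i (fun w : ℂ => F (1 + w)) 0 = iteratedDeriv i F 1 := by
    intro i
    rw [iteratedDeriv_comp_const_add]
    simp
  have h5 : ∀ w : ℂ, F (1 + w) = w ^ r * (iteratedDeriv r F 1 / (r.factorial : ℂ) + w * G w) := by
    intro w
    rw [hG' w, Finset.sum_range_succ, Finset.sum_eq_zero, h4, zero_add, smul_eq_mul, smul_eq_mul]
    · ring
    · intro i hi
      rw [h4, hz i (Finset.mem_range.mp hi), smul_zero]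
  have h6 : Tendsto (fun w : ℝ => (w : ℂ)) (𝓝[>] 0) (𝓝 0) := by
    have := Complex.continuous_ofReal.tendsto 0
    rw [Complex.ofReal_zero] at this
    exact tendsto_nhdsWithin_of_tendsto_nhds this
  have h7 : Tendsto (fun w : ℝ => iteratedDeriv r F 1 / (r.factorial : ℂ) + w * G w) (𝓝[>] 0)
      (𝓝 (iteratedDeriv r F 1 / (r.factorial : ℂ))) := by
    have h8 : Tendsto (fun w : ℂ => iteratedDeriv r F 1 / (r.factorial : ℂ) + w * G w) (𝓝 0)
        (𝓝 (iteratedDeriv r F 1 / (r.factorial : ℂ) + 0 * G 0)) :=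
      (tendsto_id.mul hG.continuousAt.tendsto).const_add _
    rw [zero_mul, add_zero] at h8
    exact h8.comp h6
  have h8 : Tendsto (fun w : ℝ => ((‖F (1 + w)‖ / w ^ r : ℝ) : ℂ)) (𝓝[>] 0)
      (𝓝 (leadAbs F r : ℂ)) := (Complex.continuous_ofReal.tendsto _).comp hlim
  have h9 : iteratedDeriv r F 1 / (r.factorial : ℂ) = (leadAbs F r : ℂ) := by
    refine tendsto_nhds_unique h7 (h8.congr' ?_)
    filter_upwards [self_mem_nhdsWithin] with w hw
    have hw0 : (0 : ℝ) < w := hw
    have hwc : (w : ℂ) ≠ 0 := by exact_mod_cast hw0.ne'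
    push_cast
    rw [← h1 w hw0, h5 w]
    field_simp
  have hfac : (r.factorial : ℂ) ≠ 0 := by exact_mod_cast r.factorial_ne_zero
  rw [div_eq_iff hfac] at h9
  rw [h9]
  unfold leadAbs
  rw [norm_mul, Complex.norm_real, Complex.norm_natCast, Real.norm_of_nonneg (by positivity)]
  push_cast
  rfl

end Pool.Agent.Q115.RV
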