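import Mathlib
set_option autoImplicit false

/-!
Functions `h` with `h s - ρ s - c` small in the mean over windows of fixed length, and with a
one-sided estimate of `h (s + a) - h s` for a set of positive measure of numbers `a`.
-/

namespace Pool.Agent.Q115.RV

open MeasureTheory Filter Topology Set

/-- locally constant to the right -/
def RC (h : ℝ → ℝ) : Prop := ∀ s, ∃ δ > 0, ∀ s', s ≤ s' → s' < s + δ → h s' = h s

theorem RC.neg {h : ℝ → ℝ} (hh : RC h) : RC (fun s => -h s) := by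
  intro s
  obtain ⟨δ, h1, h2⟩ := hh s
  exact ⟨δ, h1, fun s' h3 h4 => congrArg Neg.neg (h2 s' h3 h4)⟩

/-- the set of the exponents with a uniform estimate -/
def Ex (h : ℝ → ℝ) (ρ τ : ℝ) (n : ℕ) : Set ℝ :=
  {a | 0 ≤ a ∧ a ≤ n ∧ ∀ q : ℚ, (n : ℝ) ≤ q → h (q + a) ≤ h q + ρ * a + τ}

theorem measurableSet_Ex {h : ℝ → ℝ} (hm : Measurable h) (ρ τ : ℝ) (n : ℕ) :
    MeasurableSet (Ex h ρ τ n) := by
  have e : Ex h ρ τ n = {a | 0 ≤ a} ∩ ({a | a ≤ (n : ℝ)} ∩
      ⋂ q : ℚ, {a | (n : ℝ) ≤ q → h (q + a) ≤ h q + ρ * a + τ}) := by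
    ext a
    rw [mem_inter_iff, mem_inter_iff, mem_iInter]
    exact Iff.rfl
  rw [e]
  refine (measurableSet_le measurable_const measurable_id).inter
    ((measurableSet_le measurable_id measurable_const).inter (MeasurableSet.iInter fun q => ?_))
  by_cases hq : (n : ℝ) ≤ q
  · simp only [hq, forall_const]
    exact measurableSet_le (hm.comp (measurable_const.add measurable_id))
      ((measurable_const.add (measurable_const.mul measurable_id)).add measurable_const)
  · simp only [hq, IsEmpty.forall_iff]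
    exact MeasurableSet.const True

theorem Ex_real {h : ℝ → ℝ} (hrc : RC h) {ρ τ : ℝ} {n : ℕ} {a : ℝ} (ha : a ∈ Ex h ρ τ n) {s : ℝ}
    (hs : (n : ℝ) ≤ s) : h (s + a) ≤ h s + ρ * a + τ := by
  obtain ⟨δ1, h1, h2⟩ := hrc s
  obtain ⟨δ2, h3, h4⟩ := hrc (s + a)
  obtain ⟨q, hq1, hq2⟩ := exists_rat_btwn (show s < s + min δ1 δ2 by
    have := lt_min h1 h3
    linarith)
  have e1 : (q : ℝ) < s + δ1 := hq2.trans_le (by gcongr; exact min_le_left _ _)
  have e2 : (q : ℝ) < s + δ2 := hq2.trans_le (by gcongr; exact min_le_right _ _)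
  have e3 := ha.2.2 q (hs.trans hq1.le)
  rw [h2 q hq1.le e1, h4 (q + a) (by linarith) (by linarith)] at e3
  exact e3

/-- If the estimate holds for every `a` of a set of positive outer measure, then one of the sets
`Ex` has positive measure. -/
theorem exists_Ex {h : ℝ → ℝ} {ρ : ℝ} {τ : ℕ → ℝ} {A : Set ℝ} (hA : volume A ≠ 0)
    (h1 : ∀ a ∈ A, 0 ≤ a ∧ ∀ᶠ n : ℕ in atTop, ∀ s : ℝ, (n : ℝ) ≤ s →
      h (s + a) ≤ h s + ρ * a + τ n) : ∃ n : ℕ, volume (Ex h ρ (τ n) n) ≠ 0 := by
  by_contra hcon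
  push Not at hcon
  apply hA
  refine measure_mono_null ?_ (measure_iUnion_null hcon)
  intro a ha
  obtain ⟨h2, h3⟩ := h1 a ha
  obtain ⟨m, hm⟩ := exists_nat_ge a
  obtain ⟨n, hn1, hn2⟩ := (h3.and (eventually_ge_atTop m)).exists
  rw [mem_iUnion]
  exact ⟨n, h2, hm.trans (by exact_mod_cast hn2), fun q hq => hn1 q hq⟩

/-- mean convergence in windows -/
def LocMean (w : ℝ → ℝ) : Prop :=
  ∀ L : ℝ, 0 ≤ L → Tendsto (fun S : ℝ => ∫ s in Icc S (S + L), |w s|) atTop (𝓝 0)

/-- A point of `φ⁻¹ E` where `w` is small. -/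
theorem pick {w : ℝ → ℝ} {x L η : ℝ} (hη : 0 < η) (hi : IntegrableOn (fun s => |w s|) (Icc x (x + L)))
    {φ : ℝ → ℝ} (hφ : MeasurePreserving φ volume volume) {E : Set ℝ} (hE : MeasurableSet E)
    (hsub : φ ⁻¹' E ⊆ Icc x (x + L)) (hsmall : ∫ s in Icc x (x + L), |w s| < η * (volume E).toReal) :
    ∃ s, φ s ∈ E ∧ |w s| ≤ η := by
  by_contra hcon
  push Not at hcon
  have h1 := mul_meas_ge_le_integral_of_nonneg (μ := volume.restrict (Icc x (x + L)))
    (f := fun s => |w s|) (Eventually.of_forall fun s => abs_nonneg _) hi η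
  have h2 : volume E = volume.restrict (Icc x (x + L)) (φ ⁻¹' E) := by
    rw [Measure.restrict_apply (hφ.measurable hE), inter_eq_left.2 hsub,
      hφ.measure_preimage hE.nullMeasurableSet]
  have h3 : volume E ≤ volume.restrict (Icc x (x + L)) {s | η ≤ |w s|} := by
    rw [h2]
    exact measure_mono fun s hs => (hcon s hs).le
  have h4 : (volume E).toReal ≤ (volume.restrict (Icc x (x + L))).real {s | η ≤ |w s|} := by
    refine ENNReal.toReal_mono ?_ h3
    refine ((measure_mono (subset_univ _)).trans_lt ?_).ne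
    rw [Measure.restrict_apply_univ]
    exact isCompact_Icc.measure_lt_top
  have h5 := mul_le_mul_of_nonneg_left h4 hη.le
  linarith

/-- integrability in bounded windows far away -/
def LocInt (w : ℝ → ℝ) : Prop := ∀ x L : ℝ, 0 ≤ x → IntegrableOn (fun s => |w s|) (Icc x (x + L))

theorem main {h : ℝ → ℝ} (hm : Measurable h) (hrc : RC h) {ρ c : ℝ}
    (hi : LocInt fun s => h s - ρ * s - c) (hD : LocMean fun s => h s - ρ * s - c) {τ : ℝ} {n : ℕ}
    (hE : volume (Ex h ρ τ n) ≠ 0) {η : ℝ} (hη : 0 < η) :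
    ∀ᶠ s in atTop, |h s - ρ * s - c| ≤ τ + η := by
  set w : ℝ → ℝ := fun s => h s - ρ * s - c with hw
  set E := Ex h ρ τ n with hEdef
  have hEm : MeasurableSet E := measurableSet_Ex hm ρ τ n
  have hEsub : E ⊆ Icc 0 (n : ℝ) := fun a ha => ⟨ha.1, ha.2.1⟩
  have hEfin : volume E ≠ ⊤ :=
    ((measure_mono hEsub).trans_lt isCompact_Icc.measure_lt_top).ne
  have hpos : 0 < (volume E).toReal := ENNReal.toReal_pos hE hEfin
  have hlt : ∀ᶠ S : ℝ in atTop, ∫ s in Icc S (S + n), |w s| < η * (volume E).toReal :=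
    (hD n (Nat.cast_nonneg n)).eventually (gt_mem_nhds (mul_pos hη hpos))
  have hlt2 : ∀ᶠ S : ℝ in atTop, ∫ s in Icc (S - n) (S - n + n), |w s| < η * (volume E).toReal :=
    (tendsto_atTop_add_const_right atTop (-(n : ℝ)) tendsto_id).eventually hlt
  filter_upwards [hlt, hlt2, eventually_ge_atTop (2 * (n : ℝ))] with s h1 h2 h3
  have hn0 : (0 : ℝ) ≤ n := Nat.cast_nonneg n
  rw [abs_le]
  constructor
  · obtain ⟨x, hx1, hx2⟩ := pick (w := w) hη (hi s n (by linarith))
      (measurePreserving_sub_right volume s) hEm (by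
        intro y hy
        have := hEsub hy
        rw [mem_Icc] at this ⊢
        constructor <;> linarith [this.1, this.2]) h1
    have h4 := Ex_real hrc hx1 (show (n : ℝ) ≤ s by linarith)
    rw [add_sub_cancel] at h4
    have h5 := (abs_le.1 hx2).1
    simp only [hw] at h5
    linarith
  · obtain ⟨x, hx1, hx2⟩ := pick (w := w) hη (hi (s - n) n (by linarith))
      (Measure.measurePreserving_sub_left volume s) hEm (by
        intro y hy
        have := hEsub hy
        rw [mem_Icc] at this ⊢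
        constructor <;> linarith [this.1, this.2]) h2
    have hx3 := hEsub hx1
    have h4 := Ex_real hrc hx1 (show (n : ℝ) ≤ x by linarith [hx3.2])
    rw [add_sub_cancel] at h4
    have h5 := (abs_le.1 hx2).2
    simp only [hw] at h5
    linarith

/-- linear growth from one step -/
theorem growth {h : ℝ → ℝ} (hb : ∀ Y : ℝ, ∃ M : ℝ, ∀ s, 0 ≤ s → s ≤ Y → h s ≤ M) {a κ S : ℝ}
    (ha : 0 < a) (hS : 0 ≤ S) (h1 : ∀ s, S ≤ s → h (s + a) ≤ h s + κ) :
    ∃ B : ℝ, ∀ s, S ≤ s → h s ≤ κ / a * s + B := by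
  obtain ⟨M, hM⟩ := hb (S + a)
  have h2 : ∀ n : ℕ, ∀ s, S ≤ s → h (s + n * a) ≤ h s + n * κ := by
    intro n
    induction n with
    | zero => intro s _; simp
    | succ n ih =>
      intro s hs
      have h3 := h1 (s + n * a) (by
        have : 0 ≤ (n : ℝ) * a := by positivity
        linarith)
      have h4 := ih s hs
      push_cast
      rw [show s + ((n : ℝ) + 1) * a = s + n * a + a by ring]
      linarith
  refine ⟨M + |κ| + |κ / a * S|, fun s hs => ?_⟩
  set n := ⌊(s - S) / a⌋₊ with hn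
  have h3 : 0 ≤ (s - S) / a := div_nonneg (by linarith) ha.le
  have h4 : (n : ℝ) ≤ (s - S) / a := Nat.floor_le h3
  have h5 : (s - S) / a < n + 1 := Nat.lt_floor_add_one _
  rw [le_div_iff₀ ha] at h4
  rw [div_lt_iff₀ ha] at h5
  have h6 := h2 n (s - n * a) (by linarith)
  rw [sub_add_cancel] at h6
  have h7 := hM (s - n * a) (by linarith) (by linarith)
  have h8 : (n : ℝ) * κ ≤ κ / a * s + |κ| + |κ / a * S| := by
    have e1 : κ / a * s - κ / a * S - n * κ = κ / a * (s - S - n * a) := by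
      field_simp
    have e2 : |κ / a * (s - S - n * a)| ≤ |κ| := by
      rw [abs_mul, abs_div, abs_of_pos ha, abs_of_nonneg (show 0 ≤ s - S - n * a by linarith)]
      calc |κ| / a * (s - S - n * a) ≤ |κ| / a * a := by
            gcongr
            linarith
        _ = |κ| := by field_simp
    have e3 := (abs_le.1 e2).1
    have e4 := neg_abs_le (κ / a * S)
    linarith
  linarith

end Pool.Agent.Q115.RV
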