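import Pool.Agent.Q115.RV.Positive
set_option autoImplicit false

/-!
The equivalences: the asymptotic and the order of magnitude of the product of Birch and
Swinnerton-Dyer and its values at `x` and `x^l`, `l` in a set of positive measure.
-/

namespace Pool.Agent.Q115.RV

open MeasureTheory Filter Topology Set
open Pool.Agent.W263.BSD (GoodPrime pointCount IsLSeries bsdProduct bsdProduct_pos rsSum)
open Pool.Agent.TH949.TX
open Pool.Agent.TH270.MS.EQ

variable {a b : ℤ} {F : ℂ → ℂ}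

theorem logA {Λ : Set ℝ} (hΛ : Λ ⊆ Ioi 1) {u : ℝ} (hu : u ∈ Real.log '' Λ) :
    ∃ l ∈ Λ, 1 < l ∧ Real.log l = u := by
  obtain ⟨l, hl, rfl⟩ := hu
  exact ⟨l, hl, hΛ hl, rfl⟩

/-- the ratio if the asymptotic holds -/
theorem ratio_of_asym {r : ℕ} {C : ℝ} (hC : C ≠ 0)
    (h : Tendsto (fun x : ℝ => bsdProduct a b x / (C * Real.log x ^ r)) atTop (𝓝 1)) {l : ℝ}
    (hl : 0 < l) :
    Tendsto (fun x : ℝ => bsdProduct a b (x ^ l) / bsdProduct a b x) atTop (𝓝 (l ^ r)) := by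
  have h1 := h.comp (tendsto_rpow_atTop hl)
  have h2 := (h1.div h one_ne_zero).mul_const (l ^ r)
  rw [div_one, one_mul] at h2
  refine h2.congr' ?_
  filter_upwards [eventually_gt_atTop 1] with x hx
  have hlog := Real.log_pos hx
  have hp := bsdProduct_pos (a := a) (b := b) x
  simp only [Function.comp_apply, Pi.div_apply]
  rw [Real.log_rpow (by linarith), mul_pow]
  have : l ^ r ≠ 0 := (pow_pos hl r).ne'
  have : Real.log x ^ r ≠ 0 := (pow_pos hlog r).ne'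
  field_simp

theorem tfae_asym (H : ∀ r : ℕ, analyticOrderAt F 1 = r → Hyp a b F r)
    (hΔ : 4 * a ^ 3 + 27 * b ^ 2 ≠ 0) (hF : IsLSeries a b F)
    (hrs : Tendsto (rsSum a b) atTop (𝓝 0)) {η C₀ : ℝ} {κ : ℕ} (hη : 0 < η)
    (hg : ∀ s : ℂ, 1 - η < s.re → ‖F s‖ ≤ C₀ * (1 + ‖s‖) ^ κ) {r : ℕ}
    (hr : analyticOrderAt F 1 = r) :
    List.TFAE [
      ∃ C : ℝ, C ≠ 0 ∧ Tendsto (fun x : ℝ => bsdProduct a b x / (C * Real.log x ^ r)) atTop (𝓝 1),
      Tendsto (fun x : ℝ => bsdProduct a b x / Real.log x ^ r) atTop (𝓝 (TG F r)),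
      ∀ l : ℝ, 0 < l →
        Tendsto (fun x : ℝ => bsdProduct a b (x ^ l) / bsdProduct a b x) atTop (𝓝 (l ^ r)),
      ∃ Λ : Set ℝ, Λ ⊆ Ioi 1 ∧ volume Λ ≠ 0 ∧ ∀ l ∈ Λ, ∃ c : ℝ,
        Tendsto (fun x : ℝ => bsdProduct a b (x ^ l) / bsdProduct a b x) atTop (𝓝 c),
      ∃ Λ : Set ℝ, Λ ⊆ Ioi 1 ∧ volume Λ ≠ 0 ∧ ∀ l ∈ Λ, ∀ ε : ℝ, 0 < ε →
        ∀ᶠ x : ℝ in atTop, bsdProduct a b (x ^ l) ≤ (l ^ r + ε) * bsdProduct a b x,
      (∀ s : ℝ, 1 < s → F s ≠ 0) ∧
        ∃ Λ : Set ℝ, Λ ⊆ Ioi 1 ∧ volume Λ ≠ 0 ∧ ∀ l ∈ Λ, ∀ ε : ℝ, 0 < ε →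
          ∀ᶠ x : ℝ in atTop, (l ^ r - ε) * bsdProduct a b x ≤ bsdProduct a b (x ^ l)] := by
  have hT := TG_pos hF hr
  have H' := H r hr
  have hvol : volume (Ioi (1 : ℝ)) ≠ 0 := by
    rw [Real.volume_Ioi]
    exact ENNReal.top_ne_zero
  tfae_have 2 → 1 := by
    intro h
    refine ⟨TG F r, hT.ne', ?_⟩
    have h2 := h.div_const (TG F r)
    rw [div_self hT.ne'] at h2
    refine h2.congr fun x => ?_
    rw [div_div, mul_comm (Real.log x ^ r)]
  tfae_have 1 → 3 := by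
    rintro ⟨C, hC, h⟩ l hl
    exact ratio_of_asym hC h hl
  tfae_have 3 → 4 := fun h => ⟨Ioi 1, Subset.rfl, hvol, fun l hl =>
    ⟨_, h l (lt_trans one_pos hl)⟩⟩
  tfae_have 4 → 5 := by
    rintro ⟨Λ, h1, h2, h3⟩
    refine ⟨Λ, h1, h2, fun l hl ε hε => ?_⟩
    obtain ⟨c, hc⟩ := h3 l hl
    obtain ⟨-, rfl⟩ := ratio_limit H' (h1 hl) hc
    filter_upwards [hc.eventually (gt_mem_nhds (show l ^ r < l ^ r + ε by linarith))] with x hx
    rw [div_lt_iff₀ (bsdProduct_pos _)] at hx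
    exact hx.le
  tfae_have 5 → 2 := by
    rintro ⟨Λ, h1, h2, h3⟩
    have hne : Λ.Nonempty := by
      by_contra hcon
      rw [not_nonempty_iff_eq_empty] at hcon
      rw [hcon, measure_empty] at h2
      exact h2 rfl
    obtain ⟨l₀, hl₀⟩ := hne
    have hnz := noZeros_upper hF (h1 hl₀) (h3 l₀ hl₀ 1 one_pos)
    refine tendsto_back hT (conv_of measurable_hh rc_hh (locInt_hh _ _)
      (mean_law hΔ hF hrs hη hg hr hnz) (log_image h1 h2) fun u hu => ?_)
    obtain ⟨l, hl, hl1, rfl⟩ := logA h1 hu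
    exact ⟨(Real.log_pos hl1).le, fun ε hε => step_upper_eps hl1 (h3 l hl) hε⟩
  tfae_have 3 → 6 := by
    intro h
    refine ⟨fun s hs => ?_, Ioi 1, Subset.rfl, hvol, fun l hl ε hε => ?_⟩
    · have h2 := (ratio_limit H' one_lt_two (h 2 two_pos)).1 s (by simpa using hs)
      exact h2
    · filter_upwards [(h l (lt_trans one_pos hl)).eventually
        (lt_mem_nhds (show l ^ r - ε < l ^ r by linarith))] with x hx
      rw [lt_div_iff₀ (bsdProduct_pos _)] at hx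
      exact hx.le
  tfae_have 6 → 2 := by
    rintro ⟨hreal, Λ, h1, h2, h3⟩
    have hne : Λ.Nonempty := by
      by_contra hcon
      rw [not_nonempty_iff_eq_empty] at hcon
      rw [hcon, measure_empty] at h2
      exact h2 rfl
    obtain ⟨l₀, hl₀⟩ := hne
    have hl1 : 1 < l₀ := h1 hl₀
    have hlm : 0 < l₀ ^ r := pow_pos (by linarith) r
    have hnz := noZeros_lower hF hreal hl1 (K := (l₀ ^ r / 2)⁻¹) (by
      filter_upwards [h3 l₀ hl₀ (l₀ ^ r / 2) (by positivity)] with x hx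
      rw [sub_half] at hx
      rw [inv_mul_eq_div, le_div_iff₀ (by positivity), mul_comm]
      exact hx)
    have hD := mean_law hΔ hF hrs hη hg hr hnz
    have hc := conv_of (h := fun s => -hh a b s) (ρ := -r) (c := -Real.log (TG F r))
      measurable_hh.neg rc_hh.neg (locInt_neg (locInt_hh _ _)) (locMean_neg hD)
      (log_image h1 h2) fun u hu => by
        obtain ⟨l, hl, hl1, rfl⟩ := logA h1 hu
        refine ⟨(Real.log_pos hl1).le, fun ε hε => ?_⟩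
        filter_upwards [step_lower_eps hl1 (h3 l hl) hε] with s hs
        linarith
    refine tendsto_back hT ?_
    have h4 := hc.neg
    rw [neg_zero] at h4
    refine h4.congr fun s => ?_
    ring
  tfae_finish

theorem tfae_order (hΔ : 4 * a ^ 3 + 27 * b ^ 2 ≠ 0) (hF : IsLSeries a b F)
    (hrs : Tendsto (rsSum a b) atTop (𝓝 0)) {η C₀ : ℝ} {κ : ℕ} (hη : 0 < η)
    (hg : ∀ s : ℂ, 1 - η < s.re → ‖F s‖ ≤ C₀ * (1 + ‖s‖) ^ κ) {r : ℕ}
    (hr : analyticOrderAt F 1 = r) :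
    List.TFAE [
      ∃ c C : ℝ, 0 < c ∧ ∀ᶠ x : ℝ in atTop,
        c * Real.log x ^ r ≤ bsdProduct a b x ∧ bsdProduct a b x ≤ C * Real.log x ^ r,
      ∀ l : ℝ, 0 < l → ∃ c C : ℝ, 0 < c ∧ ∀ᶠ x : ℝ in atTop,
        c * bsdProduct a b x ≤ bsdProduct a b (x ^ l) ∧
          bsdProduct a b (x ^ l) ≤ C * bsdProduct a b x,
      ∃ Λ : Set ℝ, Λ ⊆ Ioi 1 ∧ volume Λ ≠ 0 ∧ ∀ l ∈ Λ, ∃ K : ℝ,
        ∀ᶠ x : ℝ in atTop, bsdProduct a b (x ^ l) ≤ K * bsdProduct a b x,
      (∀ s : ℝ, 1 < s → F s ≠ 0) ∧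
        ∃ Λ : Set ℝ, Λ ⊆ Ioi 1 ∧ volume Λ ≠ 0 ∧ ∀ l ∈ Λ, ∃ K : ℝ,
          ∀ᶠ x : ℝ in atTop, bsdProduct a b x ≤ K * bsdProduct a b (x ^ l)] := by
  have hT := TG_pos hF hr
  have hvol : volume (Ioi (1 : ℝ)) ≠ 0 := by
    rw [Real.volume_Ioi]
    exact ENNReal.top_ne_zero
  tfae_have 1 → 2 := by
    rintro ⟨c, C, hc, h⟩ l hl
    refine ⟨c * l ^ r / C, C * l ^ r / c, ?_⟩
    have hC : 0 < C := by
      obtain ⟨x, h1, h3⟩ := (h.and (eventually_gt_atTop 1)).exists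
      have hlog := pow_pos (Real.log_pos h3) r
      have h5 := (mul_pos hc hlog).trans_le (h1.1.trans h1.2)
      exact (pos_iff_pos_of_mul_pos h5).2 hlog
    have hlr : 0 < l ^ r := pow_pos hl r
    refine ⟨by positivity, ?_⟩
    filter_upwards [h, (tendsto_rpow_atTop hl).eventually h, eventually_gt_atTop 1]
      with x h1 h2 h3
    rw [Real.log_rpow (by linarith), mul_pow] at h2
    constructor
    · refine le_trans ?_ h2.1
      have h5 : c * l ^ r / C * bsdProduct a b x ≤ c * l ^ r / C * (C * Real.log x ^ r) :=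
        mul_le_mul_of_nonneg_left h1.2 (by positivity)
      refine h5.trans (le_of_eq ?_)
      field_simp
    · refine h2.2.trans ?_
      have h5 : C * l ^ r / c * (c * Real.log x ^ r) ≤ C * l ^ r / c * bsdProduct a b x :=
        mul_le_mul_of_nonneg_left h1.1 (by positivity)
      refine le_trans (le_of_eq ?_) h5
      field_simp
  tfae_have 2 → 3 := by
    intro h
    refine ⟨Ioi 1, Subset.rfl, hvol, fun l hl => ?_⟩
    obtain ⟨c, C, -, h1⟩ := h l (lt_trans one_pos hl)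
    exact ⟨C, h1.mono fun x hx => hx.2⟩
  have hne : ∀ Λ : Set ℝ, volume Λ ≠ 0 → Λ.Nonempty := by
    intro Λ h2
    by_contra hcon
    rw [not_nonempty_iff_eq_empty] at hcon
    rw [hcon, measure_empty] at h2
    exact h2 rfl
  tfae_have 3 → 1 := by
    rintro ⟨Λ, h1, h2, h3⟩
    obtain ⟨l₀, hl₀⟩ := hne Λ h2
    obtain ⟨K₀, hK₀⟩ := h3 l₀ hl₀
    have hnz := noZeros_upper hF (h1 hl₀) hK₀
    obtain ⟨M, hM⟩ := bdd_of measurable_hh rc_hh (locInt_hh _ _)
      (mean_law hΔ hF hrs hη hg hr hnz) (log_image h1 h2) fun u hu => by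
        obtain ⟨l, hl, hl1, rfl⟩ := logA h1 hu
        obtain ⟨K, hK⟩ := h3 l hl
        refine ⟨(Real.log_pos hl1).le, Real.log (max K 1), ?_⟩
        refine step_upper hl1 (lt_max_of_lt_right one_pos) ?_
        filter_upwards [hK] with x hx
        exact hx.trans (mul_le_mul_of_nonneg_right (le_max_left _ _) (bsdProduct_pos _).le)
    exact bdd_back hM
  tfae_have 2 → 4 := by
    intro h
    obtain ⟨c, C, -, h1⟩ := h 2 two_pos
    have hnz := noZeros_upper hF one_lt_two (h1.mono fun x hx => hx.2)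
    refine ⟨fun s hs => hnz s (by simpa using hs), Ioi 1, Subset.rfl, hvol, fun l hl => ?_⟩
    obtain ⟨c, C, hc, h1⟩ := h l (lt_trans one_pos hl)
    refine ⟨c⁻¹, h1.mono fun x hx => ?_⟩
    rw [inv_mul_eq_div, le_div_iff₀ hc, mul_comm]
    exact hx.1
  tfae_have 4 → 1 := by
    rintro ⟨hreal, Λ, h1, h2, h3⟩
    obtain ⟨l₀, hl₀⟩ := hne Λ h2
    obtain ⟨K₀, hK₀⟩ := h3 l₀ hl₀
    have hnz := noZeros_lower hF hreal (h1 hl₀) hK₀
    have hD := mean_law hΔ hF hrs hη hg hr hnz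
    obtain ⟨M, hM⟩ := bdd_of (h := fun s => -hh a b s) (ρ := -r) (c := -Real.log (TG F r))
      measurable_hh.neg rc_hh.neg (locInt_neg (locInt_hh _ _)) (locMean_neg hD)
      (log_image h1 h2) fun u hu => by
        obtain ⟨l, hl, hl1, rfl⟩ := logA h1 hu
        obtain ⟨K, hK⟩ := h3 l hl
        have hK1 : 0 < max K 1 := lt_max_of_lt_right one_pos
        refine ⟨(Real.log_pos hl1).le, Real.log (max K 1), ?_⟩
        have h4 : ∀ᶠ x : ℝ in atTop, (max K 1)⁻¹ * bsdProduct a b x ≤ bsdProduct a b (x ^ l) := by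
          filter_upwards [hK] with x hx
          rw [inv_mul_le_iff₀ hK1]
          exact hx.trans (mul_le_mul_of_nonneg_right (le_max_left _ _) (bsdProduct_pos _).le)
        filter_upwards [step_lower hl1 (inv_pos.2 hK1) h4] with s hs
        rw [Real.log_inv] at hs
        linarith
    refine bdd_back (M := M) (c := Real.log (TG F r)) ?_
    filter_upwards [hM] with s hs
    rw [← abs_neg]
    refine le_trans (le_of_eq ?_) hs
    congr 1
    ring
  tfae_finish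

end Pool.Agent.Q115.RV
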