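import Pool.Agent.TH270.MS.EQ3
import Pool.Agent.Q115.RV.Core
set_option autoImplicit false

/-!
The function `s ↦ log P(exp (exp s))`, where `P` is the product of Birch and Swinnerton-Dyer.
-/

namespace Pool.Agent.Q115.RV

open MeasureTheory Filter Topology Set Classical
open Pool.Agent.W263.BSD (GoodPrime pointCount IsLSeries bsdProduct bsdProduct_pos)
open Pool.Agent.TH270.MS Pool.Agent.TH270.MS.EQ

/-- `exp (exp s)` -/
noncomputable def ee (s : ℝ) : ℝ := Real.exp (Real.exp s)

/-- `log P(exp (exp s))` -/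
noncomputable def hh (a b : ℤ) (s : ℝ) : ℝ := Real.log (bsdProduct a b (ee s))

variable {a b : ℤ}

theorem ee_continuous : Continuous ee := Real.continuous_exp.comp Real.continuous_exp

theorem ee_pos (s : ℝ) : 0 < ee s := Real.exp_pos _

theorem ee_mono {s t : ℝ} (h : s ≤ t) : ee s ≤ ee t :=
  Real.exp_le_exp.2 (Real.exp_le_exp.2 h)

theorem log_ee (s : ℝ) : Real.log (ee s) = Real.exp s := Real.log_exp _

theorem loglog_ee (s : ℝ) : Real.log (Real.log (ee s)) = s := by rw [log_ee, Real.log_exp]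

theorem ee_loglog {x : ℝ} (hx : 1 < x) : ee (Real.log (Real.log x)) = x := by
  unfold ee
  rw [Real.exp_log (Real.log_pos hx), Real.exp_log (by linarith)]

theorem exp_one_le_ee {s : ℝ} (hs : 0 ≤ s) : Real.exp 1 ≤ ee s :=
  Real.exp_le_exp.2 (Real.one_le_exp hs)

theorem tendsto_ee : Tendsto ee atTop atTop := Real.tendsto_exp_atTop.comp Real.tendsto_exp_atTop

theorem tendsto_loglog : Tendsto (fun x : ℝ => Real.log (Real.log x)) atTop atTop :=
  Real.tendsto_log_atTop.comp Real.tendsto_log_atTop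

/-- eventually in `x` and eventually in `s` -/
theorem ev_iff {p : ℝ → Prop} : (∀ᶠ x in atTop, p x) ↔ ∀ᶠ s in atTop, p (ee s) := by
  constructor
  · exact fun h => tendsto_ee.eventually h
  · intro h
    filter_upwards [tendsto_loglog.eventually h, eventually_gt_atTop 1] with x h1 h2
    rwa [ee_loglog h2] at h1

theorem ee_rpow (s c : ℝ) : ee s ^ (Real.exp c) = ee (s + c) := by
  unfold ee
  rw [← Real.exp_mul, ← Real.exp_add]

/-- the product as a function on the natural numbers -/
noncomputable def PN (a b : ℤ) (n : ℕ) : ℝ :=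
  ∏ p ∈ (Finset.range (n + 1)).filter (GoodPrime a b), (((pointCount a b p : ℝ) + 1) / p)

theorem bsd_eq_PN (x : ℝ) : bsdProduct a b x = PN a b ⌊x⌋₊ := rfl

theorem measurable_hh : Measurable (hh a b) := by
  have h1 : Measurable (fun x : ℝ => bsdProduct a b x) :=
    (measurable_from_nat (f := PN a b)).comp Nat.measurable_floor
  exact Real.measurable_log.comp (h1.comp ee_continuous.measurable)

theorem rc_hh : RC (hh a b) := by
  intro s
  have h1 : ee s < ⌊ee s⌋₊ + 1 := Nat.lt_floor_add_one _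
  have h2 : ∀ᶠ t in 𝓝 s, ee t < ⌊ee s⌋₊ + 1 := ee_continuous.continuousAt.eventually_lt_const h1
  obtain ⟨δ, hδ, h3⟩ := Metric.eventually_nhds_iff.1 h2
  refine ⟨δ, hδ, fun t h4 h5 => ?_⟩
  have h6 : ee t < ⌊ee s⌋₊ + 1 := h3 (by
    rw [Real.dist_eq, abs_lt]
    constructor <;> linarith)
  have h7 : ⌊ee t⌋₊ = ⌊ee s⌋₊ := by
    rw [Nat.floor_eq_iff (ee_pos t).le]
    exact ⟨(Nat.floor_le (ee_pos s).le).trans (ee_mono h4), h6⟩
  show Real.log (bsdProduct a b (ee t)) = Real.log (bsdProduct a b (ee s))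
  rw [bsd_eq_PN, bsd_eq_PN, h7]

theorem bdd_hh (a b : ℤ) (Y : ℝ) : ∃ M : ℝ, ∀ s, 0 ≤ s → s ≤ Y → |hh a b s| ≤ M := by
  obtain ⟨M, hM⟩ := (bm_product a b).2 (ee Y)
  exact ⟨M, fun s h1 h2 => hM _ (exp_one_le_ee h1) (ee_mono h2)⟩

theorem locInt_hh (ρ c : ℝ) : LocInt fun s => hh a b s - ρ * s - c := by
  intro x L hx
  have hmeas : Measurable fun s => hh a b s - ρ * s - c :=
    (measurable_hh.sub (measurable_const.mul measurable_id)).sub measurable_const
  obtain ⟨M, hM⟩ := bdd_hh a b (x + L)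
  refine Measure.integrableOn_of_bounded (M := M + |ρ| * (|x| + |L|) + |c|)
    isCompact_Icc.measure_lt_top.ne (hmeas.norm.aestronglyMeasurable) ?_
  filter_upwards [ae_restrict_mem measurableSet_Icc] with s hs
  have h1 := hM s (by linarith [hs.1]) hs.2
  rw [Real.norm_eq_abs, abs_abs]
  have h2 : |ρ * s| ≤ |ρ| * (|x| + |L|) := by
    rw [abs_mul]
    refine mul_le_mul_of_nonneg_left ?_ (abs_nonneg _)
    rw [abs_of_nonneg (hx.trans hs.1)]
    exact hs.2.trans (add_le_add (le_abs_self _) (le_abs_self _))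
  have h3 := abs_sub (hh a b s - ρ * s) c
  have h4 := abs_sub (hh a b s) (ρ * s)
  linarith

theorem ee_image {S T : ℝ} (hST : S ≤ T) : ee '' Icc S T = Icc (ee S) (ee T) := by
  ext x
  constructor
  · rintro ⟨s, hs, rfl⟩
    exact ⟨ee_mono hs.1, ee_mono hs.2⟩
  · rintro ⟨h1, h2⟩
    have h3 : 1 < ee S := Real.one_lt_exp_iff.2 (Real.exp_pos S)
    refine ⟨Real.log (Real.log x), ⟨?_, ?_⟩, ee_loglog (by linarith)⟩
    · rw [← loglog_ee S]
      exact Real.log_le_log (by rw [log_ee]; exact Real.exp_pos _) (Real.log_le_log (ee_pos S) h1)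
    · rw [← loglog_ee T]
      exact Real.log_le_log (Real.log_pos (by linarith)) (Real.log_le_log (by linarith) h2)

theorem ee_injOn (A : Set ℝ) : InjOn ee A := by
  intro s _ t _ h
  rw [← loglog_ee s, h, loglog_ee]

theorem ee_deriv (s : ℝ) : HasDerivAt ee (ee s * Real.exp s) s :=
  (Real.hasDerivAt_exp s).exp

/-- change of the variable -/
theorem change (g : ℝ → ℝ) {S T : ℝ} (hST : S ≤ T) :
    ∫ x in Icc (ee S) (ee T), g x / x = ∫ s in Icc S T, Real.exp s * g (ee s) := by
  rw [← ee_image hST, integral_image_eq_integral_abs_deriv_smul measurableSet_Icc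
    (fun s _ => (ee_deriv s).hasDerivWithinAt) (ee_injOn _)]
  refine setIntegral_congr_fun measurableSet_Icc fun s _ => ?_
  have h1 := ee_pos s
  have h2 := Real.exp_pos s
  simp only [smul_eq_mul]
  rw [abs_of_pos (by positivity)]
  field_simp

theorem dev_int (ρ : ℝ) {C : ℝ} (hC : 0 < C) {X : ℝ} (hX : Real.exp 1 ≤ X) :
    IntegrableOn (fun x => |dev a b ρ C x| / x) (Icc (Real.exp 1) X) := by
  have h1 := ((bm_dev a b (ρ := ρ) hC).li X hX).abs
  have h2 : IntervalIntegrable (fun x => |dev a b ρ C x| * x⁻¹) volume (Real.exp 1) X := by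
    refine h1.mul_continuousOn ?_
    refine continuousOn_inv₀.mono ?_
    intro x hx
    rw [uIcc_of_le hX] at hx
    exact ((Real.exp_pos 1).trans_le hx.1).ne'
  rw [intervalIntegrable_iff_integrableOn_Icc_of_le hX] at h2
  exact h2

/-- mean convergence in windows from the mean law -/
theorem locMean {ρ C : ℝ} (hC : 0 < C)
    (h : Tendsto (fun X : ℝ => (∫ x in Real.exp 1..X, |dev a b ρ C x| / x) / Real.log X)
      atTop (𝓝 0)) : LocMean fun s => hh a b s - ρ * s - Real.log C := by
  intro L hL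
  have h1 : Tendsto (fun S : ℝ => Real.exp L * ((∫ x in Real.exp 1..ee (S + L),
      |dev a b ρ C x| / x) / Real.log (ee (S + L)))) atTop (𝓝 0) := by
    have h2 := (h.comp (tendsto_ee.comp (tendsto_atTop_add_const_right atTop L tendsto_id))).const_mul
      (Real.exp L)
    rw [mul_zero] at h2
    exact h2
  refine squeeze_zero' (Eventually.of_forall fun S => ?_) ?_ h1
  · exact integral_nonneg fun s => abs_nonneg _
  filter_upwards [eventually_ge_atTop 0] with S hS
  have hdev : ∀ s ∈ Icc S (S + L), |hh a b s - ρ * s - Real.log C| = |dev a b ρ C (ee s)| := by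
    intro s hs
    rw [dev_eq hC (exp_one_le_ee (hS.trans hs.1)), loglog_ee]
    rfl
  have hX : Real.exp 1 ≤ ee (S + L) := exp_one_le_ee (by linarith)
  have e1 : ∫ s in Icc S (S + L), |hh a b s - ρ * s - Real.log C| =
      ∫ s in Icc S (S + L), |dev a b ρ C (ee s)| := setIntegral_congr_fun measurableSet_Icc hdev
  have e2 : Real.exp S * ∫ s in Icc S (S + L), |dev a b ρ C (ee s)| ≤
      ∫ s in Icc S (S + L), Real.exp s * |dev a b ρ C (ee s)| := by
    rw [← integral_const_mul]
    have hint : IntegrableOn (fun s => |dev a b ρ C (ee s)|) (Icc S (S + L)) :=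
      (locInt_hh (a := a) (b := b) ρ (Real.log C) S L hS).congr_fun hdev measurableSet_Icc
    refine setIntegral_mono_on (hint.const_mul _) ?_ measurableSet_Icc fun s hs => ?_
    · exact hint.continuousOn_mul Real.continuous_exp.continuousOn isCompact_Icc
    · exact mul_le_mul_of_nonneg_right (Real.exp_le_exp.2 hs.1) (abs_nonneg _)
  have e3 : ∫ s in Icc S (S + L), Real.exp s * |dev a b ρ C (ee s)| ≤
      ∫ x in Real.exp 1..ee (S + L), |dev a b ρ C x| / x := by
    rw [← change (fun x => |dev a b ρ C x|) (show S ≤ S + L by linarith),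
      intervalIntegral.integral_of_le hX, ← integral_Icc_eq_integral_Ioc]
    refine setIntegral_mono_set (dev_int ρ hC hX) ?_
      (Eventually.of_forall (Icc_subset_Icc_left (exp_one_le_ee hS)))
    filter_upwards [ae_restrict_mem measurableSet_Icc] with x hx
    exact div_nonneg (abs_nonneg _) ((Real.exp_pos 1).le.trans hx.1)
  rw [e1, log_ee, Real.exp_add]
  have hS0 := Real.exp_pos S
  have hL0 := Real.exp_pos L
  rw [mul_div_assoc', mul_comm (Real.exp S), mul_div_mul_left _ _ hL0.ne', le_div_iff₀ hS0,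
    mul_comm]
  exact e2.trans e3

end Pool.Agent.Q115.RV
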