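import Pool.Agent.TH949.TX.BSDE
import Pool.Agent.Q115.RV.Core
set_option autoImplicit false

/-!
One exponent: consequences of one-sided estimates of `P(x^l) / P(x)`.
-/

namespace Pool.Agent.Q115.RV

open Filter Topology Set
open Pool.Agent.W263.BSD (GoodPrime pointCount IsLSeries bsdProduct bsdProduct_pos)
open Pool.Agent.TH949.TX

/-- a window contains large elements -/
theorem freq_of_window {δ : ℝ} (hδ1 : δ < 1) {S : ℝ → Prop}
    (h : ∀ᶠ X : ℝ in atTop, ∃ x : ℝ, X ^ (1 - δ) ≤ x ∧ x ≤ X ∧ S x) : ∃ᶠ x in atTop, S x := by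
  rw [frequently_atTop]
  intro y
  have h1 : Tendsto (fun X : ℝ => X ^ (1 - δ)) atTop atTop := tendsto_rpow_atTop (by linarith)
  obtain ⟨X, ⟨x, h2, -, h3⟩, h4⟩ := (h.and (h1.eventually_ge_atTop y)).exists
  exact ⟨x, h4.trans h2, h3⟩

/-- powers beat `log log` -/
theorem loglog_lt (A B : ℝ) {c : ℝ} (hc : 0 < c) :
    ∀ᶠ x : ℝ in atTop, A * Real.log (Real.log x) + B < x ^ c := by
  have h1 : (fun x : ℝ => Real.log x) =o[atTop] fun x => x ^ c := isLittleO_log_rpow_atTop hc
  have h2 : (fun x : ℝ => A * Real.log (Real.log x) + B) =O[atTop] fun x => Real.log x := by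
    have h3 : (fun x : ℝ => Real.log (Real.log x)) =O[atTop] fun x => Real.log x :=
      (Real.isLittleO_log_id_atTop.comp_tendsto Real.tendsto_log_atTop).isBigO
    have h4 : (fun _ : ℝ => B) =O[atTop] fun x => Real.log x :=
      (Real.isLittleO_const_log_atTop (c := B)).isBigO
    exact (h3.const_mul_left A).add h4
  have h5 := (h2.trans_isLittleO h1).bound (show (0 : ℝ) < 1 / 2 by norm_num)
  filter_upwards [h5, eventually_gt_atTop 0] with x h6 h7
  have h8 : 0 < x ^ c := Real.rpow_pos_of_pos h7 c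
  rw [Real.norm_eq_abs, Real.norm_of_nonneg h8.le] at h6
  have := le_abs_self (A * Real.log (Real.log x) + B)
  linarith

variable {a b : ℤ} {F : ℂ → ℂ}

/-- an upper bound `log P(x) ≤ A log log x + B` excludes zeros -/
theorem noZeros_of_upper (hF : IsLSeries a b F) {A B : ℝ}
    (h : ∀ᶠ x : ℝ in atTop, Real.log (bsdProduct a b x) ≤ A * Real.log (Real.log x) + B) :
    ∀ s : ℂ, 1 < s.re → F s ≠ 0 := by
  intro s hs h0
  have hc : 0 < (s.re - 1) / 2 := by linarith
  have h1 := bsd_up hF hc.le (show 1 + (s.re - 1) / 2 < s.re by linarith) h0 (C := 1)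
    (show (0 : ℝ) < 1 / 2 by norm_num)
  have h2 := freq_of_window (δ := 1 / 2) (by norm_num) h1
  obtain ⟨x, h3, h4, h5⟩ := (h2.and_eventually (h.and (loglog_lt A B hc))).exists
  rw [one_mul] at h3
  linarith [h3.2]

/-- a lower bound excludes zeros if there are no real zeros -/
theorem noZeros_of_lower (hF : IsLSeries a b F) (hreal : ∀ s : ℝ, 1 < s → F s ≠ 0) {A B : ℝ}
    (h : ∀ᶠ x : ℝ in atTop, -Real.log (bsdProduct a b x) ≤ A * Real.log (Real.log x) + B) :
    ∀ s : ℂ, 1 < s.re → F s ≠ 0 := by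
  intro s hs h0
  have hc : 0 < (s.re - 1) / 2 := by linarith
  have h1 := bsd_down hF hc.le (fun s hs => hreal s (by linarith))
    (show 1 + (s.re - 1) / 2 < s.re by linarith) h0 (C := 1) (show (0 : ℝ) < 1 / 2 by norm_num)
  have h2 := freq_of_window (δ := 1 / 2) (by norm_num) h1
  obtain ⟨x, h3, h4, h5⟩ := (h2.and_eventually (h.and (loglog_lt A B hc))).exists
  rw [one_mul] at h3
  linarith [h3.2]

/-- frequently `log P(x) > r log log x + log T - 1` -/
theorem freq_up {m : ℕ} (H : Hyp a b F m) : ∃ᶠ x : ℝ in atTop,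
    Real.log (TG F m) - 1 + m * Real.log (Real.log x) < Real.log (bsdProduct a b x) := by
  refine (freq_of_window (δ := 1 / 2) (by norm_num)
    (every_up H (by norm_num) (by norm_num) one_pos)).mono fun x hx => ?_
  unfold ll at hx
  linarith

theorem freq_down {m : ℕ} (H : Hyp a b F m) (hreal : ∀ s : ℝ, 1 < s → F s ≠ 0) :
    ∃ᶠ x : ℝ in atTop,
      Real.log (bsdProduct a b x) < Real.log (TG F m) + 1 + m * Real.log (Real.log x) := by
  refine (freq_of_window (δ := 1 / 2) (by norm_num)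
    (every_mid H hreal (by norm_num) (by norm_num) one_pos)).mono fun x hx => ?_
  unfold ll at hx
  linarith [(abs_lt.1 hx).2]

end Pool.Agent.Q115.RV
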