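import Pool.Agent.Q115.RV.Single
import Pool.Agent.Q115.RV.Coef
set_option autoImplicit false

/-!
Sets of exponents of positive measure and the product of Birch and Swinnerton-Dyer.
-/

namespace Pool.Agent.Q115.RV

open MeasureTheory Filter Topology Set
open Pool.Agent.W263.BSD (GoodPrime pointCount IsLSeries bsdProduct bsdProduct_pos rsSum)
open Pool.Agent.TH949.TX
open Pool.Agent.TH270.MS.EQ

/-- the logarithms of a set of positive measure -/
theorem log_image {Λ : Set ℝ} (hΛ : Λ ⊆ Ioi 1) (hv : volume Λ ≠ 0) :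
    volume (Real.log '' Λ) ≠ 0 := by
  intro h
  apply hv
  have h1 : Real.exp '' (Real.log '' Λ) = Λ := by
    rw [image_image]
    ext x
    constructor
    · rintro ⟨y, hy, rfl⟩
      show Real.exp (Real.log y) ∈ Λ
      rwa [Real.exp_log (lt_trans one_pos (hΛ hy))]
    · intro hx
      exact ⟨x, hx, Real.exp_log (lt_trans one_pos (hΛ hx))⟩
  rw [← h1]
  exact addHaar_image_eq_zero_of_differentiableOn_of_addHaar_eq_zero volume
    Real.differentiable_exp.differentiableOn h

section abs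

variable {h : ℝ → ℝ} {ρ c : ℝ} {A : Set ℝ}

theorem conv_of (hm : Measurable h) (hrc : RC h) (hi : LocInt fun s => h s - ρ * s - c)
    (hD : LocMean fun s => h s - ρ * s - c) (hA : volume A ≠ 0)
    (h1 : ∀ a ∈ A, 0 ≤ a ∧ ∀ ε : ℝ, 0 < ε → ∀ᶠ s in atTop, h (s + a) ≤ h s + ρ * a + ε) :
    Tendsto (fun s => h s - ρ * s - c) atTop (𝓝 0) := by
  rw [Metric.tendsto_nhds]
  intro ε hε
  obtain ⟨n, hn⟩ := exists_Ex (h := h) (ρ := ρ) (τ := fun _ => ε / 3) hA fun a ha => by
    obtain ⟨h2, h3⟩ := h1 a ha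
    refine ⟨h2, ?_⟩
    obtain ⟨S, hS⟩ := eventually_atTop.1 (h3 (ε / 3) (by positivity))
    filter_upwards [tendsto_natCast_atTop_atTop.eventually_ge_atTop S] with n hn s hs
    exact hS s (hn.trans hs)
  filter_upwards [main hm hrc hi hD hn (show 0 < ε / 3 by positivity)] with s hs
  rw [Real.dist_eq, sub_zero]
  linarith

theorem bdd_of (hm : Measurable h) (hrc : RC h) (hi : LocInt fun s => h s - ρ * s - c)
    (hD : LocMean fun s => h s - ρ * s - c) (hA : volume A ≠ 0)
    (h1 : ∀ a ∈ A, 0 ≤ a ∧ ∃ K : ℝ, ∀ᶠ s in atTop, h (s + a) ≤ h s + K) :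
    ∃ M : ℝ, ∀ᶠ s in atTop, |h s - ρ * s - c| ≤ M := by
  obtain ⟨n, hn⟩ := exists_Ex (h := h) (ρ := ρ) (τ := fun n => (n : ℝ)) hA fun a ha => by
    obtain ⟨h2, K, h3⟩ := h1 a ha
    refine ⟨h2, ?_⟩
    obtain ⟨S, hS⟩ := eventually_atTop.1 h3
    filter_upwards [tendsto_natCast_atTop_atTop.eventually_ge_atTop (max S (K - ρ * a))]
      with n hn s hs
    have h4 := hS s (((le_max_left _ _).trans hn).trans hs)
    have h5 := (le_max_right S (K - ρ * a)).trans hn
    linarith
  exact ⟨n + 1, main hm hrc hi hD hn one_pos⟩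

theorem locInt_neg (hi : LocInt fun s => h s - ρ * s - c) :
    LocInt fun s => (fun s => -h s) s - -ρ * s - -c := by
  intro x L hx
  refine (hi x L hx).congr_fun (fun s _ => ?_) measurableSet_Icc
  simp only
  rw [← abs_neg]
  ring_nf

theorem locMean_neg (hD : LocMean fun s => h s - ρ * s - c) :
    LocMean fun s => (fun s => -h s) s - -ρ * s - -c := by
  intro L hL
  refine (hD L hL).congr fun S => ?_
  refine setIntegral_congr_fun measurableSet_Icc fun s _ => ?_
  simp only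
  rw [← abs_neg]
  ring_nf

end abs

variable {a b : ℤ} {F : ℂ → ℂ}

theorem TG_pos (hF : IsLSeries a b F) {r : ℕ} (hr : analyticOrderAt F 1 = r) : 0 < TG F r := by
  obtain ⟨h1, -⟩ := Pool.Agent.W263.BSD.lead_limit hF.1 hr
  unfold Pool.Agent.W263.BSD.leadAbs at h1
  have h2 : (0 : ℝ) < r.factorial := by exact_mod_cast r.factorial_pos
  have h3 : 0 < ‖iteratedDeriv r F 1‖ := by
    rw [div_pos_iff] at h1
    rcases h1 with h1 | h1
    · exact h1.1
    · linarith [h1.2]
  unfold TG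
  positivity

/-- the mean law -/
theorem mean_law (hΔ : 4 * a ^ 3 + 27 * b ^ 2 ≠ 0) (hF : IsLSeries a b F)
    (hrs : Tendsto (rsSum a b) atTop (𝓝 0)) {η C₀ : ℝ} {κ : ℕ} (hη : 0 < η)
    (hg : ∀ s : ℂ, 1 - η < s.re → ‖F s‖ ≤ C₀ * (1 + ‖s‖) ^ κ) {r : ℕ}
    (hr : analyticOrderAt F 1 = r) (hnz : ∀ s : ℂ, 1 < s.re → F s ≠ 0) :
    LocMean fun s => hh a b s - r * s - Real.log (TG F r) := by
  have hT := TG_pos hF hr
  have t := (curve_law hΔ hF hrs hη hg r hT).out 0 1
  refine locMean hT (t.1 ⟨hnz, r, rfl, hr, ?_⟩)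
  have h1 := coeff_real hF hr fun s hs => hnz s (by simpa using hs)
  have h2 : (0 : ℝ) < r.factorial := by exact_mod_cast r.factorial_pos
  have h3 : 0 < ‖iteratedDeriv r F 1‖ := by
    by_contra hcon
    have h4 : ‖iteratedDeriv r F 1‖ = 0 := le_antisymm (not_lt.1 hcon) (norm_nonneg _)
    unfold TG at hT
    rw [h4, div_zero] at hT
    exact lt_irrefl _ hT
  have h5 : √2 * Real.exp (r * Real.eulerMascheroniConstant) / TG F r =
      ‖iteratedDeriv r F 1‖ / r.factorial := by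
    unfold TG
    have := Real.exp_pos (r * Real.eulerMascheroniConstant)
    have : (0 : ℝ) < √2 := by positivity
    field_simp
  rw [h5, h1]
  push_cast
  rw [Complex.norm_real, norm_norm]

/-- from `s` back to `x` -/
theorem tendsto_back {r : ℕ} {C : ℝ} (hC : 0 < C)
    (h : Tendsto (fun s => hh a b s - r * s - Real.log C) atTop (𝓝 0)) :
    Tendsto (fun x : ℝ => bsdProduct a b x / Real.log x ^ r) atTop (𝓝 C) := by
  have h1 : Tendsto (fun s => Real.exp (hh a b s - r * s - Real.log C + Real.log C)) atTop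
      (𝓝 (Real.exp (0 + Real.log C))) :=
    (Real.continuous_exp.tendsto _).comp (h.add_const _)
  rw [zero_add, Real.exp_log hC] at h1
  refine (h1.comp tendsto_loglog).congr' ?_
  filter_upwards [eventually_gt_atTop 1] with x hx
  have hl := Real.log_pos hx
  simp only [Function.comp_apply, sub_add_cancel]
  unfold hh
  rw [ee_loglog hx, Real.exp_sub, Real.exp_log (bsdProduct_pos _), ← Real.log_pow,
    Real.exp_log (pow_pos hl r)]

theorem bdd_back {r : ℕ} {c M : ℝ} (h : ∀ᶠ s in atTop, |hh a b s - r * s - c| ≤ M) :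
    ∃ m C : ℝ, 0 < m ∧ ∀ᶠ x : ℝ in atTop,
      m * Real.log x ^ r ≤ bsdProduct a b x ∧ bsdProduct a b x ≤ C * Real.log x ^ r := by
  refine ⟨Real.exp (c - M), Real.exp (c + M), Real.exp_pos _, ?_⟩
  filter_upwards [tendsto_loglog.eventually h, eventually_gt_atTop 1] with x h1 hx
  have hl := Real.log_pos hx
  unfold hh at h1
  rw [ee_loglog hx, abs_le] at h1
  have e1 : Real.log x ^ r = Real.exp (r * Real.log (Real.log x)) := by
    rw [← Real.log_pow, Real.exp_log (pow_pos hl r)]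
  have e2 := Real.exp_log (bsdProduct_pos (a := a) (b := b) x)
  rw [← e2, e1, ← Real.exp_add, ← Real.exp_add]
  exact ⟨Real.exp_le_exp.2 (by linarith [h1.1]), Real.exp_le_exp.2 (by linarith [h1.2])⟩

/-- the logarithm of an upper bound of the ratio near `l^r` -/
theorem step_upper_eps {l : ℝ} (hl : 1 < l) {r : ℕ}
    (h : ∀ ε : ℝ, 0 < ε → ∀ᶠ x : ℝ in atTop, bsdProduct a b (x ^ l) ≤ (l ^ r + ε) * bsdProduct a b x)
    {ε : ℝ} (hε : 0 < ε) :
    ∀ᶠ s in atTop, hh a b (s + Real.log l) ≤ hh a b s + r * Real.log l + ε := by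
  have hlm : 0 < l ^ r := pow_pos (by linarith) r
  have h1 : 0 < l ^ r * (Real.exp ε - 1) := mul_pos hlm (by
    have := Real.add_one_lt_exp hε.ne'
    linarith)
  have h2 := h _ h1
  have e : l ^ r + l ^ r * (Real.exp ε - 1) = l ^ r * Real.exp ε := by ring
  rw [e] at h2
  filter_upwards [step_upper hl (mul_pos hlm (Real.exp_pos ε)) h2] with s hs
  rw [Real.log_mul hlm.ne' (Real.exp_pos _).ne', Real.log_exp, Real.log_pow] at hs
  linarith

theorem step_lower_eps {l : ℝ} (hl : 1 < l) {r : ℕ}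
    (h : ∀ ε : ℝ, 0 < ε → ∀ᶠ x : ℝ in atTop, (l ^ r - ε) * bsdProduct a b x ≤ bsdProduct a b (x ^ l))
    {ε : ℝ} (hε : 0 < ε) :
    ∀ᶠ s in atTop, hh a b s + r * Real.log l - ε ≤ hh a b (s + Real.log l) := by
  have hlm : 0 < l ^ r := pow_pos (by linarith) r
  have h1 : 0 < l ^ r * (1 - Real.exp (-ε)) := mul_pos hlm (by
    have : Real.exp (-ε) < 1 := by
      rw [← Real.exp_zero]
      exact Real.exp_lt_exp.2 (by linarith)
    linarith)
  have h2 := h _ h1
  have e : l ^ r - l ^ r * (1 - Real.exp (-ε)) = l ^ r * Real.exp (-ε) := by ring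
  rw [e] at h2
  filter_upwards [step_lower hl (mul_pos hlm (Real.exp_pos (-ε))) h2] with s hs
  rw [Real.log_mul hlm.ne' (Real.exp_pos _).ne', Real.log_exp, Real.log_pow] at hs
  linarith

end Pool.Agent.Q115.RV
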