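import Pool.Agent.Q115.RV.Fun
import Pool.Agent.Q115.RV.One
set_option autoImplicit false

/-!
One exponent `l > 1` and the ratio `P(x^l) / P(x)`.
-/

namespace Pool.Agent.Q115.RV

open Filter Topology Set
open Pool.Agent.W263.BSD (GoodPrime pointCount IsLSeries bsdProduct bsdProduct_pos)
open Pool.Agent.TH949.TX

variable {a b : ℤ} {F : ℂ → ℂ}

theorem log_P_ee (a b : ℤ) {l : ℝ} (hl : 1 < l) (s : ℝ) :
    Real.log (bsdProduct a b (ee s ^ l)) = hh a b (s + Real.log l) := by
  unfold hh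
  rw [← ee_rpow, Real.exp_log (by linarith)]

/-- an upper bound for the ratio, in the variable `s` -/
theorem step_upper {l K : ℝ} (hl : 1 < l) (hK : 0 < K)
    (h : ∀ᶠ x : ℝ in atTop, bsdProduct a b (x ^ l) ≤ K * bsdProduct a b x) :
    ∀ᶠ s : ℝ in atTop, hh a b (s + Real.log l) ≤ hh a b s + Real.log K := by
  filter_upwards [ev_iff.1 h] with s hs
  rw [← log_P_ee a b hl]
  have h1 := Real.log_le_log (bsdProduct_pos _) hs
  rw [Real.log_mul hK.ne' (bsdProduct_pos _).ne'] at h1
  unfold hh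
  linarith

theorem step_lower {l K : ℝ} (hl : 1 < l) (hK : 0 < K)
    (h : ∀ᶠ x : ℝ in atTop, K * bsdProduct a b x ≤ bsdProduct a b (x ^ l)) :
    ∀ᶠ s : ℝ in atTop, hh a b s + Real.log K ≤ hh a b (s + Real.log l) := by
  filter_upwards [ev_iff.1 h] with s hs
  rw [← log_P_ee a b hl]
  have h1 := Real.log_le_log (mul_pos hK (bsdProduct_pos _)) hs
  rw [Real.log_mul hK.ne' (bsdProduct_pos _).ne'] at h1
  unfold hh
  linarith

theorem growth_upper {l κ : ℝ} (hl : 1 < l)
    (h : ∀ᶠ s : ℝ in atTop, hh a b (s + Real.log l) ≤ hh a b s + κ) :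
    ∃ B : ℝ, ∀ᶠ x : ℝ in atTop, Real.log (bsdProduct a b x) ≤
      κ / Real.log l * Real.log (Real.log x) + B := by
  obtain ⟨S, hS⟩ := eventually_atTop.1 h
  obtain ⟨B, hB⟩ := growth (h := hh a b) (fun Y => by
    obtain ⟨M, hM⟩ := bdd_hh a b Y
    exact ⟨M, fun s h1 h2 => (abs_le.1 (hM s h1 h2)).2⟩) (Real.log_pos hl) (le_max_right S 0)
    fun s hs => hS s ((le_max_left _ _).trans hs)
  refine ⟨B, ev_iff.2 ?_⟩
  filter_upwards [eventually_ge_atTop (max S 0)] with s hs
  rw [loglog_ee]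
  exact hB s hs

theorem growth_lower {l κ : ℝ} (hl : 1 < l)
    (h : ∀ᶠ s : ℝ in atTop, hh a b s + κ ≤ hh a b (s + Real.log l)) :
    ∃ B : ℝ, ∀ᶠ x : ℝ in atTop, -Real.log (bsdProduct a b x) ≤
      -κ / Real.log l * Real.log (Real.log x) + B := by
  obtain ⟨S, hS⟩ := eventually_atTop.1 h
  obtain ⟨B, hB⟩ := growth (h := fun s => -hh a b s) (κ := -κ) (fun Y => by
    obtain ⟨M, hM⟩ := bdd_hh a b Y
    exact ⟨M, fun s h1 h2 => by
      have := (abs_le.1 (hM s h1 h2)).1
      show -hh a b s ≤ M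
      linarith⟩) (Real.log_pos hl) (le_max_right S 0)
    fun s hs => by
      have := hS s ((le_max_left _ _).trans hs)
      show -hh a b (s + Real.log l) ≤ -hh a b s + -κ
      linarith
  refine ⟨B, ev_iff.2 ?_⟩
  filter_upwards [eventually_ge_atTop (max S 0)] with s hs
  rw [loglog_ee]
  exact hB s hs

/-- one exponent with bounded ratio -/
theorem noZeros_upper (hF : IsLSeries a b F) {l K : ℝ} (hl : 1 < l)
    (h : ∀ᶠ x : ℝ in atTop, bsdProduct a b (x ^ l) ≤ K * bsdProduct a b x) :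
    ∀ s : ℂ, 1 < s.re → F s ≠ 0 := by
  have h' : ∀ᶠ x : ℝ in atTop, bsdProduct a b (x ^ l) ≤ max K 1 * bsdProduct a b x := by
    filter_upwards [h] with x hx
    exact hx.trans (mul_le_mul_of_nonneg_right (le_max_left _ _) (bsdProduct_pos _).le)
  obtain ⟨B, hB⟩ := growth_upper hl (step_upper hl (lt_max_of_lt_right one_pos) h')
  exact noZeros_of_upper hF hB

theorem noZeros_lower (hF : IsLSeries a b F) (hreal : ∀ s : ℝ, 1 < s → F s ≠ 0) {l K : ℝ}
    (hl : 1 < l) (h : ∀ᶠ x : ℝ in atTop, bsdProduct a b x ≤ K * bsdProduct a b (x ^ l)) :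
    ∀ s : ℂ, 1 < s.re → F s ≠ 0 := by
  have hK : 0 < max K 1 := lt_max_of_lt_right one_pos
  have h' : ∀ᶠ x : ℝ in atTop, (max K 1)⁻¹ * bsdProduct a b x ≤ bsdProduct a b (x ^ l) := by
    filter_upwards [h] with x hx
    rw [inv_mul_le_iff₀ hK]
    exact hx.trans (mul_le_mul_of_nonneg_right (le_max_left _ _) (bsdProduct_pos _).le)
  obtain ⟨B, hB⟩ := growth_lower hl (step_lower hl (inv_pos.2 hK) h')
  exact noZeros_of_lower hF hreal hB

theorem log_pow_exp {l : ℝ} (hl : 1 < l) (m : ℕ) : Real.log (l ^ m) / Real.log l = m := by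
  rw [Real.log_pow]
  have := Real.log_pos hl
  field_simp

/-- the upper limit of the ratio is at least `l^m` -/
theorem freq_ratio_up {m : ℕ} (H : Hyp a b F m) {l ε : ℝ} (hl : 1 < l) (hε : 0 < ε) :
    ∃ᶠ x : ℝ in atTop, (l ^ m - ε) * bsdProduct a b x < bsdProduct a b (x ^ l) := by
  by_contra hcon
  rw [not_frequently] at hcon
  have h1 : ∀ᶠ x : ℝ in atTop, bsdProduct a b (x ^ l) ≤ (l ^ m - ε) * bsdProduct a b x :=
    hcon.mono fun x hx => not_lt.1 hx
  have hpos : 0 < l ^ m - ε := by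
    obtain ⟨x, hx⟩ := h1.exists
    have h2 := bsdProduct_pos (a := a) (b := b) (x ^ l)
    have h3 := bsdProduct_pos (a := a) (b := b) x
    by_contra hcon2
    have := mul_nonpos_of_nonpos_of_nonneg (not_lt.1 hcon2) h3.le
    linarith
  obtain ⟨B, hB⟩ := growth_upper hl (step_upper hl hpos h1)
  have hlog := Real.log_pos hl
  have hlt : Real.log (l ^ m - ε) / Real.log l < m := by
    rw [← log_pow_exp hl m]
    exact div_lt_div_of_pos_right (Real.log_lt_log hpos (by linarith)) hlog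
  set κ := Real.log (l ^ m - ε) / Real.log l with hκ
  have h4 : Tendsto (fun x : ℝ => (m - κ) * Real.log (Real.log x)) atTop atTop :=
    tendsto_loglog.const_mul_atTop (by linarith)
  obtain ⟨x, h5, h6, h7⟩ := ((freq_up H).and_eventually (hB.and (h4.eventually_ge_atTop
    (B - (Real.log (TG F m) - 1))))).exists
  have h8 : (m - κ) * Real.log (Real.log x) = m * Real.log (Real.log x) -
    κ * Real.log (Real.log x) := by ring
  linarith

/-- the lower limit of the ratio is at most `l^m` if there are no real zeros -/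
theorem freq_ratio_down {m : ℕ} (H : Hyp a b F m) (hreal : ∀ s : ℝ, 1 < s → F s ≠ 0) {l ε : ℝ}
    (hl : 1 < l) (hε : 0 < ε) :
    ∃ᶠ x : ℝ in atTop, bsdProduct a b (x ^ l) < (l ^ m + ε) * bsdProduct a b x := by
  by_contra hcon
  rw [not_frequently] at hcon
  have h1 : ∀ᶠ x : ℝ in atTop, (l ^ m + ε) * bsdProduct a b x ≤ bsdProduct a b (x ^ l) :=
    hcon.mono fun x hx => not_lt.1 hx
  have hlm : 0 < l ^ m := pow_pos (by linarith) m
  have hpos : 0 < l ^ m + ε := by linarith
  obtain ⟨B, hB⟩ := growth_lower hl (step_lower hl hpos h1)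
  have hlog := Real.log_pos hl
  have hlt : m < Real.log (l ^ m + ε) / Real.log l := by
    rw [← log_pow_exp hl m]
    exact div_lt_div_of_pos_right (Real.log_lt_log hlm (by linarith)) hlog
  rw [neg_div] at hB
  set κ := Real.log (l ^ m + ε) / Real.log l with hκ
  have h4 : Tendsto (fun x : ℝ => (κ - m) * Real.log (Real.log x)) atTop atTop :=
    tendsto_loglog.const_mul_atTop (by linarith)
  obtain ⟨x, h5, h6, h7⟩ := ((freq_down H hreal).and_eventually (hB.and (h4.eventually_ge_atTop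
    (B + (Real.log (TG F m) + 1))))).exists
  have h8 : (κ - m) * Real.log (Real.log x) = κ * Real.log (Real.log x) -
    m * Real.log (Real.log x) := by ring
  linarith

/-- if the ratio converges, the limit is `l^m` and there are no zeros to the right -/
theorem ratio_limit {m : ℕ} (H : Hyp a b F m) {l c : ℝ} (hl : 1 < l)
    (h : Tendsto (fun x : ℝ => bsdProduct a b (x ^ l) / bsdProduct a b x) atTop (𝓝 c)) :
    (∀ s : ℂ, 1 < s.re → F s ≠ 0) ∧ c = l ^ m := by
  have h1 : ∀ ε : ℝ, 0 < ε → ∀ᶠ x : ℝ in atTop,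
      (c - ε) * bsdProduct a b x < bsdProduct a b (x ^ l) ∧
      bsdProduct a b (x ^ l) < (c + ε) * bsdProduct a b x := by
    intro ε hε
    filter_upwards [h.eventually (lt_mem_nhds (show c - ε < c by linarith)),
      h.eventually (gt_mem_nhds (show c < c + ε by linarith))] with x h2 h3
    have hp := bsdProduct_pos (a := a) (b := b) x
    rw [lt_div_iff₀ hp] at h2
    rw [div_lt_iff₀ hp] at h3
    exact ⟨h2, h3⟩
  have hnz := noZeros_upper H.lser hl ((h1 1 one_pos).mono fun x hx => hx.2.le)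
  refine ⟨hnz, le_antisymm ?_ ?_⟩
  · refine le_of_forall_pos_le_add fun ε hε => ?_
    obtain ⟨x, h2, h3⟩ := ((freq_ratio_down H (fun s hs => by
      have := hnz s (by simpa using hs)
      exact this) hl (half_pos hε)).and_eventually (h1 (ε / 2) (half_pos hε))).exists
    have h4 := h3.1.trans h2
    have h5 := lt_of_mul_lt_mul_right h4 (bsdProduct_pos _).le
    linarith
  · refine le_of_forall_pos_le_add fun ε hε => ?_
    obtain ⟨x, h2, h3⟩ := ((freq_ratio_up H hl (half_pos hε)).and_eventually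
      (h1 (ε / 2) (half_pos hε))).exists
    have h4 := h2.trans h3.2
    have h5 := lt_of_mul_lt_mul_right h4 (bsdProduct_pos _).le
    linarith

end Pool.Agent.Q115.RV
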