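import Pool.Agent.Q115.RV.Fun
import Pool.Agent.Q5.MS.RieszLaw
import Pool.Agent.Q5.MS.Gen
set_option autoImplicit false

/-!
One-sided bounds for the logarithm `Pv` of an Euler product over the primes `≤ y` of a system: one
exponent, and sets of exponents of positive measure.
-/

namespace Pool.Agent.Q115.RV

open MeasureTheory Filter Topology Set
open Pool.Agent.TH942.ES (Sys cv zv)
open Pool.Agent.TH942.RZ (rzw)
open Pool.Agent.TH270.MS (BM Mc Pl)
open Pool.Agent.TH270.RS (Lw)
open Pool.Agent.Q5.MS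

/-! ### the real variable part -/

/-- a version of `main` for bounded means -/
theorem main_bdd {h : ℝ → ℝ} (hm : Measurable h) (hrc : RC h) {ρ : ℝ}
    (hi : LocInt fun s => h s - ρ * s - 0)
    (hD : ∀ L : ℝ, 0 ≤ L → ∃ B : ℝ, ∀ᶠ S : ℝ in atTop,
      ∫ s in Icc S (S + L), |h s - ρ * s - 0| ≤ B) {A : Set ℝ} (hA : volume A ≠ 0)
    (h1 : ∀ a ∈ A, 0 ≤ a ∧ ∃ K : ℝ, ∀ᶠ s in atTop, h (s + a) ≤ h s + K) :
    ∃ M : ℝ, ∀ᶠ s in atTop, |h s - ρ * s| ≤ M := by
  obtain ⟨n, hE⟩ := exists_Ex (h := h) (ρ := ρ) (τ := fun n => (n : ℝ)) hA fun a ha => by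
    obtain ⟨h2, K, h3⟩ := h1 a ha
    refine ⟨h2, ?_⟩
    obtain ⟨S, hS⟩ := eventually_atTop.1 h3
    filter_upwards [tendsto_natCast_atTop_atTop.eventually_ge_atTop (max S (K - ρ * a))]
      with n hn s hs
    have h4 := hS s (((le_max_left _ _).trans hn).trans hs)
    have h5 := (le_max_right S (K - ρ * a)).trans hn
    linarith
  set w : ℝ → ℝ := fun s => h s - ρ * s - 0 with hw
  set E := Ex h ρ n n with hEdef
  have hEm : MeasurableSet E := measurableSet_Ex hm ρ n n
  have hEsub : E ⊆ Icc 0 (n : ℝ) := fun a ha => ⟨ha.1, ha.2.1⟩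
  have hEfin : volume E ≠ ⊤ :=
    ((measure_mono hEsub).trans_lt isCompact_Icc.measure_lt_top).ne
  have hpos : 0 < (volume E).toReal := ENNReal.toReal_pos hE hEfin
  obtain ⟨B, hB⟩ := hD n (Nat.cast_nonneg n)
  set η : ℝ := (|B| + 1) / (volume E).toReal with hη'
  have hη : 0 < η := by positivity
  have hηE : η * (volume E).toReal = |B| + 1 := by
    rw [hη']
    field_simp
  have hlt : ∀ᶠ S : ℝ in atTop, ∫ s in Icc S (S + n), |w s| < η * (volume E).toReal := by
    filter_upwards [hB] with S hS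
    rw [hηE]
    exact hS.trans_lt (by linarith [le_abs_self B])
  have hlt2 : ∀ᶠ S : ℝ in atTop, ∫ s in Icc (S - n) (S - n + n), |w s| < η * (volume E).toReal :=
    (tendsto_atTop_add_const_right atTop (-(n : ℝ)) tendsto_id).eventually hlt
  refine ⟨n + η, ?_⟩
  filter_upwards [hlt, hlt2, eventually_ge_atTop (2 * (n : ℝ))] with s h1 h2 h3
  have hn0 : (0 : ℝ) ≤ n := Nat.cast_nonneg n
  rw [abs_le]
  constructor
  · obtain ⟨x, hx1, hx2⟩ := pick (w := w) hη (hi s n (by linarith))
      (measurePreserving_sub_right volume s) hEm (by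
        intro y hy
        have := hEsub hy
        rw [mem_Icc] at this ⊢
        constructor <;> linarith [this.1, this.2]) h1
    have h4 := Ex_real hrc hx1 (show (n : ℝ) ≤ s by linarith)
    rw [add_sub_cancel] at h4
    have h5 := (abs_le.1 hx2).1
    simp only [hw] at h5
    linarith
  · obtain ⟨x, hx1, hx2⟩ := pick (w := w) hη (hi (s - n) n (by linarith))
      (Measure.measurePreserving_sub_left volume s) hEm (by
        intro y hy
        have := hEsub hy
        rw [mem_Icc] at this ⊢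
        constructor <;> linarith [this.1, this.2]) h2
    have hx3 := hEsub hx1
    have h4 := Ex_real hrc hx1 (show (n : ℝ) ≤ x by linarith [hx3.2])
    rw [add_sub_cancel] at h4
    have h5 := (abs_le.1 hx2).2
    simp only [hw] at h5
    linarith

/-- bounded means in windows, from bounded logarithmic means -/
theorem locB {f : ℝ → ℝ} (bm : BM f)
    (h : ∃ B : ℝ, ∀ᶠ Y : ℝ in atTop, ∫ y in Real.exp 1..Y, |f y| / y ≤ B * Real.log Y) :
    ∀ L : ℝ, 0 ≤ L → ∃ B : ℝ, ∀ᶠ S : ℝ in atTop, ∫ s in Icc S (S + L), |f (ee s)| ≤ B := by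
  intro L hL
  obtain ⟨B, hB⟩ := h
  refine ⟨Real.exp L * B, ?_⟩
  have h1 := (tendsto_ee.comp (tendsto_atTop_add_const_right atTop L tendsto_id)).eventually hB
  filter_upwards [h1, eventually_ge_atTop 0] with S hS1 hS
  simp only [Function.comp_apply, id_eq] at hS1
  have hX : Real.exp 1 ≤ ee (S + L) := exp_one_le_ee (by linarith)
  have hint1 : IntegrableOn (fun x => |f x| / x) (Icc (Real.exp 1) (ee (S + L))) := by
    have h1 := (bm.li (ee (S + L)) hX).abs
    have h2 : IntervalIntegrable (fun x => |f x| * x⁻¹) volume (Real.exp 1) (ee (S + L)) := by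
      refine h1.mul_continuousOn ?_
      refine continuousOn_inv₀.mono ?_
      intro x hx
      rw [uIcc_of_le hX] at hx
      exact ((Real.exp_pos 1).trans_le hx.1).ne'
    rw [intervalIntegrable_iff_integrableOn_Icc_of_le hX] at h2
    exact h2
  have hSL : S ≤ S + L := by linarith
  have hint2 : IntegrableOn (fun s => Real.exp s * |f (ee s)|) (Icc S (S + L)) := by
    have h2 : IntegrableOn (fun x => |f x| / x) (ee '' Icc S (S + L)) := by
      rw [ee_image hSL]
      exact hint1.mono_set (Icc_subset_Icc_left (exp_one_le_ee hS))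
    rw [integrableOn_image_iff_integrableOn_abs_deriv_smul measurableSet_Icc
      (fun s _ => (ee_deriv s).hasDerivWithinAt) (ee_injOn _)] at h2
    refine h2.congr_fun (fun s _ => ?_) measurableSet_Icc
    have h1 := ee_pos s
    have h2 := Real.exp_pos s
    simp only [smul_eq_mul]
    rw [abs_of_pos (by positivity)]
    field_simp
  have hint : IntegrableOn (fun s => |f (ee s)|) (Icc S (S + L)) := by
    have h3 := hint2.continuousOn_mul (g := fun s => Real.exp (-s))
      (Real.continuous_exp.comp continuous_neg).continuousOn isCompact_Icc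
    refine h3.congr_fun (fun s _ => ?_) measurableSet_Icc
    simp only
    rw [← mul_assoc, ← Real.exp_add, neg_add_cancel, Real.exp_zero, one_mul]
  have e2 : Real.exp S * ∫ s in Icc S (S + L), |f (ee s)| ≤
      ∫ s in Icc S (S + L), Real.exp s * |f (ee s)| := by
    rw [← integral_const_mul]
    refine setIntegral_mono_on (hint.const_mul _) hint2 measurableSet_Icc fun s hs => ?_
    exact mul_le_mul_of_nonneg_right (Real.exp_le_exp.2 hs.1) (abs_nonneg _)
  have e3 : ∫ s in Icc S (S + L), Real.exp s * |f (ee s)| ≤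
      ∫ x in Real.exp 1..ee (S + L), |f x| / x := by
    rw [← change (fun x => |f x|) hSL,
      intervalIntegral.integral_of_le hX, ← integral_Icc_eq_integral_Ioc]
    refine setIntegral_mono_set hint1 ?_
      (Eventually.of_forall (Icc_subset_Icc_left (exp_one_le_ee hS)))
    filter_upwards [ae_restrict_mem measurableSet_Icc] with x hx
    exact div_nonneg (abs_nonneg _) ((Real.exp_pos 1).le.trans hx.1)
  rw [log_ee, Real.exp_add] at hS1
  have hS0 := Real.exp_pos S
  have h5 := (e2.trans e3).trans hS1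
  have h6 : B * (Real.exp S * Real.exp L) = Real.exp S * (Real.exp L * B) := by ring
  rw [h6] at h5
  exact le_of_mul_le_mul_left h5 hS0

/-! ### the system -/

variable {X : Type} {d : ℕ} {N : X → ℕ} {α : X → Fin d → ℂ} {Ψ G₀ : ℂ → ℂ} {k κ : ℕ} {η C : ℝ}

theorem pv_floor {y : ℝ} (hy : 0 ≤ y) : Pv N α y = Pv N α ((⌊y⌋₊ : ℕ) : ℝ) := by
  unfold Pv
  refine finsum_congr fun v => ?_
  have : ((N v : ℝ) ≤ y) = ((N v : ℝ) ≤ ((⌊y⌋₊ : ℕ) : ℝ)) := by
    rw [Nat.cast_le, Nat.le_floor_iff hy]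
  rw [this]

/-- `Pv (exp (exp s))` -/
noncomputable def hv (N : X → ℕ) (α : X → Fin d → ℂ) (s : ℝ) : ℝ := Pv N α (ee s)

theorem measurable_hv : Measurable (hv N α) := by
  have h1 : hv N α = fun s => (fun n : ℕ => Pv N α (n : ℝ)) ⌊ee s⌋₊ := by
    funext s
    exact pv_floor (ee_pos s).le
  rw [h1]
  exact (measurable_from_nat (f := fun n : ℕ => Pv N α (n : ℝ))).comp
    (Nat.measurable_floor.comp ee_continuous.measurable)

theorem rc_hv : RC (hv N α) := by
  intro s
  have h1 : ee s < ⌊ee s⌋₊ + 1 := Nat.lt_floor_add_one _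
  have h2 : ∀ᶠ t in 𝓝 s, ee t < ⌊ee s⌋₊ + 1 := ee_continuous.continuousAt.eventually_lt_const h1
  obtain ⟨δ, hδ, h3⟩ := Metric.eventually_nhds_iff.1 h2
  refine ⟨δ, hδ, fun t h4 h5 => ?_⟩
  have h6 : ee t < ⌊ee s⌋₊ + 1 := h3 (by
    rw [Real.dist_eq, abs_lt]
    constructor <;> linarith)
  have h7 : ⌊ee t⌋₊ = ⌊ee s⌋₊ := by
    rw [Nat.floor_eq_iff (ee_pos t).le]
    exact ⟨(Nat.floor_le (ee_pos s).le).trans (ee_mono h4), h6⟩
  show Pv N α (ee t) = Pv N α (ee s)
  rw [pv_floor (ee_pos t).le, pv_floor (ee_pos s).le, h7]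

theorem bdd_hv (E : Sys N α) (Y : ℝ) : ∃ M : ℝ, ∀ s, 0 ≤ s → s ≤ Y → |hv N α s| ≤ M := by
  obtain ⟨M, hM⟩ := (bm_pv E).2 (ee Y)
  exact ⟨M, fun s h1 h2 => hM _ (exp_one_le_ee h1) (ee_mono h2)⟩

theorem locInt_hv (E : Sys N α) (ρ c : ℝ) : LocInt fun s => hv N α s - ρ * s - c := by
  intro x L hx
  have hmeas : Measurable fun s => hv N α s - ρ * s - c :=
    (measurable_hv.sub (measurable_const.mul measurable_id)).sub measurable_const
  obtain ⟨M, hM⟩ := bdd_hv E (x + L)
  refine Measure.integrableOn_of_bounded (M := M + |ρ| * (|x| + |L|) + |c|)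
    isCompact_Icc.measure_lt_top.ne (hmeas.norm.aestronglyMeasurable) ?_
  filter_upwards [ae_restrict_mem measurableSet_Icc] with s hs
  have h1 := hM s (by linarith [hs.1]) hs.2
  rw [Real.norm_eq_abs, abs_abs]
  have h2 : |ρ * s| ≤ |ρ| * (|x| + |L|) := by
    rw [abs_mul]
    refine mul_le_mul_of_nonneg_left ?_ (abs_nonneg _)
    rw [abs_of_nonneg (hx.trans hs.1)]
    exact hs.2.trans (add_le_add (le_abs_self _) (le_abs_self _))
  have h3 := abs_sub (hv N α s - ρ * s) c
  have h4 := abs_sub (hv N α s) (ρ * s)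
  linarith

/-- the mean of the system in windows -/
theorem mean_hv (E : Sys N α) {ρ : ℝ}
    (h : ∃ B : ℝ, ∀ᶠ Y : ℝ in atTop,
      ∫ y in Real.exp 1..Y, |Pv N α y - ρ * Real.log (Real.log y)| / y ≤ B * Real.log Y) :
    ∀ L : ℝ, 0 ≤ L → ∃ B : ℝ, ∀ᶠ S : ℝ in atTop,
      ∫ s in Icc S (S + L), |hv N α s - ρ * s - 0| ≤ B := by
  intro L hL
  have bm : BM fun x => Pv N α x - ρ * Real.log (Real.log x) :=
    (bm_pv E).sub ((BM.const ρ).mul BM.loglog)
  obtain ⟨B, hB⟩ := locB bm h L hL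
  refine ⟨B, ?_⟩
  filter_upwards [hB] with S hS
  refine le_trans (le_of_eq ?_) hS
  refine setIntegral_congr_fun measurableSet_Icc fun s _ => ?_
  show |hv N α s - ρ * s - 0| = |Pv N α (ee s) - ρ * Real.log (Real.log (ee s))|
  rw [loglog_ee, sub_zero]
  rfl

end Pool.Agent.Q115.RV
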