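import Pool.Agent.Q115.RV.Up
import Pool.Agent.Q115.RV.Positive
set_option autoImplicit false

/-!
The criteria for systems: one exponent, and exponents of positive measure.
-/

namespace Pool.Agent.Q115.RV

open MeasureTheory Filter Topology Set
open Pool.Agent.TH942.ES (Sys cv zv)
open Pool.Agent.TH270.MS (BM Mc Pl)
open Pool.Agent.TH270.RS (Lw)
open Pool.Agent.Q5.MS

variable {X : Type} {d : ℕ} {N : X → ℕ} {α : X → Fin d → ℂ} {Ψ G₀ : ℂ → ℂ} {k κ κ' : ℕ}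
  {η C C' : ℝ} {m : ℕ}

theorem pv_ee {l : ℝ} (hl : 0 < l) (s : ℝ) : Pv N α (ee s ^ l) = hv N α (s + Real.log l) := by
  unfold hv
  rw [← ee_rpow, Real.exp_log hl]

theorem step_sys {l K : ℝ} (hl : 0 < l) (h : ∀ᶠ y : ℝ in atTop, Pv N α (y ^ l) ≤ Pv N α y + K) :
    ∀ᶠ s : ℝ in atTop, hv N α (s + Real.log l) ≤ hv N α s + K := by
  filter_upwards [ev_iff.1 h] with s hs
  rw [← pv_ee hl]
  exact hs

theorem growth_sys (E : Sys N α) {l K : ℝ} (hl : 1 < l)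
    (h : ∀ᶠ y : ℝ in atTop, Pv N α (y ^ l) ≤ Pv N α y + K) :
    ∃ B : ℝ, (∀ᶠ s : ℝ in atTop, hv N α s ≤ K / Real.log l * s + B) ∧
      ∀ᶠ y : ℝ in atTop, Pv N α y ≤ K / Real.log l * Real.log (Real.log y) + B := by
  obtain ⟨S, hS⟩ := eventually_atTop.1 (step_sys (lt_trans one_pos hl) h)
  obtain ⟨B, hB⟩ := growth (h := hv N α) (fun Y => by
    obtain ⟨M, hM⟩ := bdd_hv E Y
    exact ⟨M, fun s h1 h2 => (abs_le.1 (hM s h1 h2)).2⟩) (Real.log_pos hl) (le_max_right S 0)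
    fun s hs => hS s ((le_max_left _ _).trans hs)
  refine ⟨B, ?_, ev_iff.2 ?_⟩
  · filter_upwards [eventually_ge_atTop (max S 0)] with s hs
    exact hB s hs
  · filter_upwards [eventually_ge_atTop (max S 0)] with s hs
    rw [loglog_ee]
    exact hB s hs

theorem mean_of_noZeros (HM : Mc N α Ψ G₀ k κ η C) (HL : Lw N α Ψ m)
    (hnz : ∀ s : ℂ, 0 < s.re → Ψ s ≠ 0) :
    ∀ L : ℝ, 0 ≤ L → ∃ B : ℝ, ∀ᶠ S : ℝ in atTop,
      ∫ s in Icc S (S + L), |hv N α s - m * s - 0| ≤ B := by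
  have t := (order_real HM (m : ℝ)).out 0 3
  refine mean_hv HL.E (t.1 ⟨hnz, (m : ℤ), by push_cast; rfl, ?_⟩)
  rw [HL.h0.meromorphicOrderAt_eq, HL.hm]
  rfl

/-- one exponent -/
theorem sys_one (HM : Mc N α Ψ G₀ k κ η C) (HL : Lw N α Ψ m)
    (hgrow : ∀ s : ℂ, 0 < s.re → ‖Ψ s‖ ≤ C' * (1 + ‖s‖) ^ κ' * (1 + 1 / s.re) ^ κ') {l K : ℝ}
    (hl : 1 < l) (h : ∀ᶠ y : ℝ in atTop, Pv N α (y ^ l) ≤ Pv N α y + K) :
    (∀ s : ℂ, 0 < s.re → Ψ s ≠ 0) ∧ m * Real.log l ≤ K := by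
  obtain ⟨B, hB1, hB2⟩ := growth_sys HL.E hl h
  have hnz := noZeros_sys HL hgrow hB2
  refine ⟨hnz, ?_⟩
  have hlog := Real.log_pos hl
  by_contra hcon
  push Not at hcon
  have h1 : 0 < m - K / Real.log l := by
    rw [sub_pos, div_lt_iff₀ hlog]
    exact hcon
  obtain ⟨B', hB'⟩ := mean_of_noZeros HM HL hnz 1 zero_le_one
  have h2 : Tendsto (fun s : ℝ => (m - K / Real.log l) * s) atTop atTop :=
    tendsto_id.const_mul_atTop h1
  obtain ⟨S₁, hS₁⟩ := eventually_atTop.1 (hB1.and (h2.eventually_ge_atTop (B + (B' + 1))))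
  obtain ⟨S, hS, hS2, hS0⟩ := (hB'.and ((eventually_ge_atTop S₁).and (eventually_ge_atTop 0))).exists
  have h3 : ∫ _ in Icc S (S + 1), (B' + 1) = B' + 1 := by
    rw [setIntegral_const, smul_eq_mul, Measure.real, Real.volume_Icc,
      ENNReal.toReal_ofReal (by linarith)]
    ring
  have h4 : B' + 1 ≤ ∫ s in Icc S (S + 1), |hv N α s - m * s - 0| := by
    rw [← h3]
    refine setIntegral_mono_on (integrableOn_const isCompact_Icc.measure_lt_top.ne)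
      (locInt_hv HL.E m 0 S 1 hS0) measurableSet_Icc fun s hs => ?_
    obtain ⟨h5, h6⟩ := hS₁ s (hS2.trans hs.1)
    have h7 := neg_abs_le (hv N α s - m * s - 0)
    have h8 : (m - K / Real.log l) * s = m * s - K / Real.log l * s := by ring
    linarith
  linarith

/-- from a bound for `Pv` to bounds for the ratio -/
theorem ratio_sys {ρ : ℝ} (h : ∃ M : ℝ, ∀ᶠ y : ℝ in atTop,
    |Pv N α y - ρ * Real.log (Real.log y)| ≤ M) {l : ℝ} (hl : 0 < l) :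
    ∃ K : ℝ, ∀ᶠ y : ℝ in atTop, |Pv N α (y ^ l) - Pv N α y| ≤ K := by
  obtain ⟨M, hM⟩ := h
  refine ⟨2 * M + |ρ * Real.log l|, ?_⟩
  filter_upwards [hM, (tendsto_rpow_atTop hl).eventually hM, eventually_gt_atTop 1] with y h1 h2 h3
  have hy := Real.log_pos h3
  rw [Real.log_rpow (by linarith), Real.log_mul hl.ne' hy.ne'] at h2
  have e : Pv N α (y ^ l) - Pv N α y = (Pv N α (y ^ l) - ρ * (Real.log l + Real.log (Real.log y))) -
      (Pv N α y - ρ * Real.log (Real.log y)) + ρ * Real.log l := by ring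
  rw [e]
  refine (abs_add_le _ _).trans ?_
  refine add_le_add ((abs_sub _ _).trans ?_) le_rfl
  linarith

/-- exponents of positive measure -/
theorem sys_tfae (HM : Mc N α Ψ G₀ k κ η C) (HL : Lw N α Ψ m)
    (hgrow : ∀ s : ℂ, 0 < s.re → ‖Ψ s‖ ≤ C' * (1 + ‖s‖) ^ κ' * (1 + 1 / s.re) ^ κ') :
    List.TFAE [
      ∃ M : ℝ, ∀ᶠ y : ℝ in atTop, |Pv N α y - m * Real.log (Real.log y)| ≤ M,
      ∀ l : ℝ, 0 < l → ∃ K : ℝ, ∀ᶠ y : ℝ in atTop, |Pv N α (y ^ l) - Pv N α y| ≤ K,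
      ∃ Λ : Set ℝ, Λ ⊆ Ioi 1 ∧ volume Λ ≠ 0 ∧ ∀ l ∈ Λ, ∃ K : ℝ,
        ∀ᶠ y : ℝ in atTop, Pv N α (y ^ l) ≤ Pv N α y + K] := by
  tfae_have 1 → 2 := fun h l hl => ratio_sys h hl
  tfae_have 2 → 3 := by
    intro h
    refine ⟨Ioi 1, Subset.rfl, ?_, fun l hl => ?_⟩
    · rw [Real.volume_Ioi]
      exact ENNReal.top_ne_zero
    · obtain ⟨K, hK⟩ := h l (lt_trans one_pos hl)
      exact ⟨K, hK.mono fun y hy => by linarith [(abs_le.1 hy).2]⟩
  tfae_have 3 → 1 := by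
    rintro ⟨Λ, h1, h2, h3⟩
    have hne : Λ.Nonempty := by
      by_contra hcon
      rw [not_nonempty_iff_eq_empty] at hcon
      rw [hcon, measure_empty] at h2
      exact h2 rfl
    obtain ⟨l₀, hl₀⟩ := hne
    obtain ⟨K₀, hK₀⟩ := h3 l₀ hl₀
    have hnz := (sys_one HM HL hgrow (h1 hl₀) hK₀).1
    obtain ⟨M, hM⟩ := main_bdd measurable_hv rc_hv (locInt_hv HL.E m 0)
      (mean_of_noZeros HM HL hnz) (log_image h1 h2) fun u hu => by
        obtain ⟨l, hl, rfl⟩ := hu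
        have hl1 : 1 < l := h1 hl
        obtain ⟨K, hK⟩ := h3 l hl
        exact ⟨(Real.log_pos hl1).le, K, step_sys (by linarith) hK⟩
    refine ⟨M, ev_iff.2 ?_⟩
    filter_upwards [hM] with s hs
    rw [loglog_ee]
    exact hs
  tfae_finish

/-- the exponent of the order of magnitude -/
theorem sys_order (HM : Mc N α Ψ G₀ k κ η C) (HL : Lw N α Ψ m)
    (hgrow : ∀ s : ℂ, 0 < s.re → ‖Ψ s‖ ≤ C' * (1 + ‖s‖) ^ κ' * (1 + 1 / s.re) ^ κ') (ρ : ℝ) :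
    (∃ M : ℝ, ∀ᶠ y : ℝ in atTop, |Pv N α y - ρ * Real.log (Real.log y)| ≤ M) ↔
      ρ = m ∧ ∃ Λ : Set ℝ, Λ ⊆ Ioi 1 ∧ volume Λ ≠ 0 ∧ ∀ l ∈ Λ, ∃ K : ℝ,
        ∀ᶠ y : ℝ in atTop, Pv N α (y ^ l) ≤ Pv N α y + K := by
  have t := sys_tfae HM HL hgrow
  have t1 := t.out 0 2
  have t2 := t.out 1 2
  constructor
  · intro h
    have h1 := t2.1 fun l hl => ratio_sys h hl
    refine ⟨?_, h1⟩
    obtain ⟨M, hM⟩ := h
    obtain ⟨M', hM'⟩ := t1.2 h1
    by_contra hne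
    have h2 : 0 < |ρ - m| := abs_pos.2 (sub_ne_zero.2 hne)
    have h3 : Tendsto (fun y : ℝ => |ρ - m| * Real.log (Real.log y)) atTop atTop :=
      tendsto_loglog.const_mul_atTop h2
    obtain ⟨y, h4, h5, h6, h7⟩ := (hM.and (hM'.and ((h3.eventually_gt_atTop (M + M')).and
      (tendsto_loglog.eventually_ge_atTop 0)))).exists
    have e : (ρ - m) * Real.log (Real.log y) = (Pv N α y - m * Real.log (Real.log y)) -
        (Pv N α y - ρ * Real.log (Real.log y)) := by ring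
    have h8 := abs_sub (Pv N α y - m * Real.log (Real.log y)) (Pv N α y - ρ * Real.log (Real.log y))
    rw [← e, abs_mul, abs_of_nonneg h7] at h8
    linarith
  · rintro ⟨rfl, h⟩
    exact t1.2 h

end Pool.Agent.Q115.RV
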