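import Pool.Agent.Q115.RV.Sys
set_option autoImplicit false

/-!
An upper bound for the partial sums `Pv` excludes zeros: the Riesz mean of order one is an average
of the partial sums.
-/

namespace Pool.Agent.Q115.RV

open MeasureTheory Filter Topology Set
open Pool.Agent.TH942.ES (Sys cv zv)
open Pool.Agent.TH942.RZ (rzw)
open Pool.Agent.TH270.MS (BM Mc Pl)
open Pool.Agent.TH270.RS (Lw)
open Pool.Agent.Q5.MS

/-- `∫_0^T (∑_{x_v ≤ t} c_v) dt = ∑ (T - x_v) c_v` -/
theorem average {ι : Type*} (S : Finset ι) (x c : ι → ℝ) {T : ℝ} (hx : ∀ v ∈ S, 0 < x v ∧ x v ≤ T) :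
    ∫ t in Ioc 0 T, (∑ v ∈ S, (Ici (x v)).indicator (fun _ => c v) t) =
      ∑ v ∈ S, (T - x v) * c v := by
  rw [integral_finset_sum]
  · refine Finset.sum_congr rfl fun v hv => ?_
    obtain ⟨h1, h2⟩ := hx v hv
    rw [setIntegral_indicator measurableSet_Ici, setIntegral_const, smul_eq_mul]
    have e : Ioc 0 T ∩ Ici (x v) = Icc (x v) T := by
      ext t
      simp only [mem_inter_iff, mem_Ioc, mem_Ici, mem_Icc]
      constructor
      · rintro ⟨⟨-, h4⟩, h5⟩
        exact ⟨h5, h4⟩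
      · rintro ⟨h4, h5⟩
        exact ⟨⟨h1.trans_le h4, h5⟩, h4⟩
    rw [e, Measure.real, Real.volume_Icc, ENNReal.toReal_ofReal (by linarith)]
  · intro v _
    refine IntegrableOn.indicator ?_ measurableSet_Ici
    exact integrableOn_const measure_Ioc_lt_top.ne

theorem average_le {ι : Type*} (S : Finset ι) (x c : ι → ℝ) {T M : ℝ} (hT : 0 ≤ T)
    (hx : ∀ v ∈ S, 0 < x v ∧ x v ≤ T)
    (h : ∀ t, 0 < t → t ≤ T → (∑ v ∈ S, (Ici (x v)).indicator (fun _ => c v) t) ≤ M) :
    ∑ v ∈ S, (T - x v) * c v ≤ T * M := by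
  rw [← average S x c hx]
  have h1 : ∫ _ in Ioc 0 T, M = T * M := by
    rw [setIntegral_const, smul_eq_mul, Measure.real, Real.volume_Ioc,
      ENNReal.toReal_ofReal (by linarith), sub_zero]
  rw [← h1]
  refine setIntegral_mono_on ?_ (integrableOn_const measure_Ioc_lt_top.ne) measurableSet_Ioc
    fun t ht => h t ht.1 ht.2
  refine integrable_finset_sum _ fun v _ => ?_
  refine IntegrableOn.indicator ?_ measurableSet_Ici
  exact integrableOn_const measure_Ioc_lt_top.ne

variable {X : Type} {d : ℕ} {N : X → ℕ} {α : X → Fin d → ℂ} {Ψ G₀ : ℂ → ℂ} {k κ : ℕ} {η C : ℝ}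

/-- the Riesz mean of order one is at most the maximum of the partial sums -/
theorem sv_le (E : Sys N α) {Y M : ℝ} (hY : 1 < Y)
    (h : ∀ y : ℝ, 1 < y → y ≤ Y → Pv N α y ≤ M) : Sv N α 1 Y ≤ M := by
  classical
  have hT : 0 < Real.log Y := Real.log_pos hY
  have hN : ∀ v, (2 : ℝ) ≤ N v := fun v => by exact_mod_cast E.two_le v
  set S := (E.fin_le Y).toFinset with hS
  have hx : ∀ v ∈ S, 0 < Real.log (N v) ∧ Real.log (N v) ≤ Real.log Y := by
    intro v hv
    rw [hS, Set.Finite.mem_toFinset] at hv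
    exact ⟨Real.log_pos (by linarith [hN v]), Real.log_le_log (by linarith [hN v]) hv⟩
  have h1 := average_le S (fun v => Real.log (N v)) (cv N α) (M := M) hT.le hx (by
    intro t ht0 ht
    have h2 := h (Real.exp t) (Real.one_lt_exp_iff.2 ht0) (by
      rw [← Real.exp_log (show 0 < Y by linarith)]
      exact Real.exp_le_exp.2 ht)
    refine le_trans (le_of_eq ?_) h2
    rw [pv_eq E]
    have hsub : (E.fin_le (Real.exp t)).toFinset ⊆ S := by
      intro v hv
      rw [hS, Set.Finite.mem_toFinset]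
      rw [Set.Finite.mem_toFinset] at hv
      refine le_trans (α := ℝ) hv ?_
      rw [← Real.exp_log (show 0 < Y by linarith)]
      exact Real.exp_le_exp.2 ht
    rw [← Finset.sum_subset hsub (f := fun v => (Ici (Real.log (N v))).indicator
      (fun _ => cv N α v) t)]
    · refine Finset.sum_congr rfl fun v hv => ?_
      rw [Set.Finite.mem_toFinset] at hv
      have hv' : (N v : ℝ) ≤ Real.exp t := hv
      rw [indicator_of_mem]
      rw [mem_Ici, Real.log_le_iff_le_exp (by linarith [hN v])]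
      exact hv'
    · intro v _ hv
      rw [Set.Finite.mem_toFinset] at hv
      rw [indicator_of_notMem]
      rw [mem_Ici, Real.log_le_iff_le_exp (by linarith [hN v])]
      exact hv)
  have h2 : Sv N α 1 Y = (∑ v ∈ S, (Real.log Y - Real.log (N v)) * cv N α v) / Real.log Y := by
    have e : Sv N α 1 Y = ∑ v ∈ S, rzw 1 (Real.log (N v) / Real.log Y) * cv N α v :=
      finsum_mem_eq_finite_toFinset_sum (fun v => rzw 1 (Real.log (N v) / Real.log Y) * cv N α v)
        (E.fin_le Y)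
    rw [e, Finset.sum_div]
    refine Finset.sum_congr rfl fun v hv => ?_
    obtain ⟨h3, h4⟩ := hx v hv
    unfold rzw
    rw [Real.rpow_one, max_eq_left]
    · field_simp
    · rw [sub_nonneg, div_le_one hT]
      exact h4
  rw [h2, div_le_iff₀ hT, mul_comm M]
  exact h1

/-- an upper bound `Pv y ≤ A log log y + B` excludes zeros -/
theorem noZeros_sys {m : ℕ} (H : Lw N α Ψ m) {C : ℝ} {κ : ℕ}
    (hgrow : ∀ s : ℂ, 0 < s.re → ‖Ψ s‖ ≤ C * (1 + ‖s‖) ^ κ * (1 + 1 / s.re) ^ κ) {A B : ℝ}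
    (h : ∀ᶠ y : ℝ in atTop, Pv N α y ≤ A * Real.log (Real.log y) + B) :
    ∀ s : ℂ, 0 < s.re → Ψ s ≠ 0 := by
  obtain ⟨y₀, hy₀⟩ := eventually_atTop.1 (h.and (eventually_ge_atTop (Real.exp 1)))
  obtain ⟨M₀, hM₀⟩ : ∃ M₀ : ℝ, ∀ y : ℝ, y ≤ y₀ → Pv N α y ≤ M₀ := by
    refine ⟨∑ v ∈ (H.E.fin_le y₀).toFinset, |cv N α v|, fun y hy => ?_⟩
    rw [pv_eq H.E]
    refine (Finset.sum_le_sum fun v _ => le_abs_self _).trans ?_
    refine Finset.sum_le_sum_of_subset_of_nonneg (fun v hv => ?_) fun _ _ _ => abs_nonneg _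
    rw [Set.Finite.mem_toFinset] at hv ⊢
    exact le_trans (α := ℝ) hv hy
  have t := (riesz_upper H hgrow (|A|)).out 0 2
  refine (t.2 ⟨1, one_pos, fun ε hε => ?_⟩).1
  have h1 : Tendsto (fun Y : ℝ => ε * Real.log (Real.log Y)) atTop atTop :=
    tendsto_loglog.const_mul_atTop hε
  filter_upwards [h1.eventually_ge_atTop (|B| + |M₀|), eventually_gt_atTop 1,
    tendsto_loglog.eventually_ge_atTop 0] with Y h2 h3 h4
  have h5 : 0 ≤ |A| * Real.log (Real.log Y) := mul_nonneg (abs_nonneg _) h4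
  refine (sv_le H.E h3 (M := |A| * Real.log (Real.log Y) + (|B| + |M₀|)) fun y hy1 hy2 => ?_).trans
    (by rw [add_mul]; linarith)
  rcases le_total y y₀ with h6 | h6
  · have h7 := hM₀ y h6
    have := le_abs_self M₀
    have := abs_nonneg B
    linarith
  · obtain ⟨h7, h8⟩ := hy₀ y h6
    have h9 : 0 ≤ Real.log (Real.log y) := by
      have : 1 ≤ Real.log y := by
        rw [← Real.log_exp 1]
        exact Real.log_le_log (Real.exp_pos 1) h8
      exact Real.log_nonneg this
    have h10 : Real.log (Real.log y) ≤ Real.log (Real.log Y) :=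
      Real.log_le_log (Real.log_pos hy1) (Real.log_le_log (by linarith) hy2)
    have h11 : A * Real.log (Real.log y) ≤ |A| * Real.log (Real.log y) :=
      mul_le_mul_of_nonneg_right (le_abs_self A) h9
    have h12 : |A| * Real.log (Real.log y) ≤ |A| * Real.log (Real.log Y) :=
      mul_le_mul_of_nonneg_left h10 (abs_nonneg _)
    have := le_abs_self B
    have := abs_nonneg M₀
    linarith

end Pool.Agent.Q115.RV
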